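import Pool.Agent.Sep.Defs

/-! MP_ce56ef_an.  MODULE BRANCH (about 200 lines).

PROOFS.
* `exists_bound`: a countable subset of `Γ` has a strict upper bound (otherwise `Γ` would be a countable
  union of countable sets `Iic a`).
* `weak_fodor`: suppose not; for each `z` the set `{a | D a ⊆ Iio z}` is countable, so bounded: there is
  `g z > z` with `a < g z` for all `a` with `D a ⊆ Iio z`.  Let `z 0` be arbitrary,
  `z (n+1) = g (z n)` and let `d` be the least strict upper bound of all `z n` (exists by `exists_bound`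
  and well-foundedness).  Every `y < d` satisfies `y ≤ z n` for some `n` (minimality of `d`), so the finite set
  `D d ⊆ Iio d` is contained in `Iio (z n)` for some `n` (take the maximum over the finite set and one more
  step: `y ≤ z n < z (n+1)`).  So `d < g (z n) = z (n+1) < d`, contradiction.
* `countable_restr`: `Almost` says that `v` agrees with `e a` on `Iio a` up to finitely many places.  The set of
  functions `Iio z → ℕ` which are restrictions of `v` with `Almost C v a` for some `a ≥ z` is countable: on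
  `Iio z` such `v` differs from `e z` at finitely many places only (`coh`), so `v - e z` (as a function to `ℤ`)
  is in the countable set of finitely supported functions on the countable set `Iio z`.
* `branch`: suppose not, that is: (*) for `a, b ∈ S` with `g a < b`, `a ≤ g a` and `d < a` such that
  `v a`, `v b` agree below `d` and `v a d ≠ v b d`, we have `r (v b d) (v a d)`.
  Fix `z`.  By `countable_restr` and uncountability of `S` there is an uncountable `S' ⊆ S ∩ Ici z` on which
  `v a` restricted to `Iio z` is constant, equal to `t`.  Let `a₀ ∈ S'`.  For every `a ∈ S` with `g a₀ < a`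
  choose `a₁ ∈ S'` with `g a < a₁`.  If `v a` is not equal to `t` on `Iio z`, let `d < z` be the first
  difference; (*) for `a₀, a` gives `r (v a d) (t d)` and (*) for `a, a₁` gives `r (t d) (v a d)`:
  contradiction to asymmetry.  So for all `a ∈ S`, `a > g a₀`, `v a = t` on `Iio z`.  Hence for every `z` there
  is `t z` such that `v a = t z` on `Iio z` for all but countably many `a ∈ S`.  Let `b y = t (y+) y` for
  any `y+ > y` (well defined: independent of the choice).  So for every `z` there is `a ∈ S`, `a ≥ z` with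
  `v a = b` on `Iio z`.  By `Almost` and `fin1`: `{y < z | b y = n}` is finite for all `z` and `n`.  So
  `{y | b y = n}` is countable (an uncountable set has an infinite countable subset, which has an upper
  bound), and `Γ` is the union over `n`: contradiction to `unc`.
* `P1`: `branch` with `v a = e a`, `g a = a`, `r = (· > ·)`. -/

set_option linter.all false

namespace Pool.Agent.Sep

namespace Coh

variable (C : Coh)

theorem countable_Iic (a : C.Γ) : (Set.Iic a).Countable := by
  have : Set.Iic a = Set.Iio a ∪ {a} := by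
    ext b
    simp only [Set.mem_Iic, Set.mem_union, Set.mem_Iio, Set.mem_singleton_iff]
    exact le_iff_lt_or_eq
  rw [this]
  exact (C.ctb a).union (Set.countable_singleton a)

theorem exists_bound {S : Set C.Γ} (hS : S.Countable) : ∃ b, ∀ a ∈ S, a < b := by
  by_contra hcon
  push Not at hcon
  apply C.unc
  have : (Set.univ : Set C.Γ) ⊆ ⋃ a ∈ S, Set.Iic a := by
    intro b _
    obtain ⟨a, ha, hab⟩ := hcon b
    exact Set.mem_biUnion ha hab
  exact (hS.biUnion fun a _ => C.countable_Iic a).mono this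

theorem exists_gt_of_unc {S : Set C.Γ} (hS : ¬ S.Countable) (u : C.Γ) : ∃ a ∈ S, u < a := by
  by_contra hcon
  push Not at hcon
  exact hS ((C.countable_Iic u).mono fun a ha => hcon a ha)

theorem weak_fodor (D : C.Γ → Set C.Γ) (hf : ∀ a, (D a).Finite) (hD : ∀ a, D a ⊆ Set.Iio a) :
    ∃ z, ¬ {a | D a ⊆ Set.Iio z}.Countable := by
  by_contra hcon
  push Not at hcon
  have h1 : ∀ z, ∃ w, z < w ∧ ∀ a, D a ⊆ Set.Iio z → a < w := by
    intro z
    obtain ⟨b, hb⟩ := C.exists_bound ((hcon z).union (Set.countable_singleton z))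
    exact ⟨b, hb z (Or.inr rfl), fun a ha => hb a (Or.inl ha)⟩
  choose g hg1 hg2 using h1
  obtain ⟨z0⟩ : Nonempty C.Γ := by
    by_contra hne
    rw [not_nonempty_iff] at hne
    apply C.unc
    exact Set.countable_univ
  let z : ℕ → C.Γ := fun n => g^[n] z0
  have hz : ∀ n, z (n + 1) = g (z n) := fun n => Function.iterate_succ_apply' g n z0
  have hzm : StrictMono z := strictMono_nat_of_lt_succ fun n => by rw [hz]; exact hg1 _
  have hne : {b : C.Γ | ∀ n, z n < b}.Nonempty := by
    obtain ⟨b, hb⟩ := C.exists_bound (Set.countable_range z)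
    exact ⟨b, fun n => hb _ ⟨n, rfl⟩⟩
  set d := (wellFounded_lt : WellFounded ((· < ·) : C.Γ → C.Γ → Prop)).min _ hne with hd
  have hd1 : ∀ n, z n < d :=
    (wellFounded_lt : WellFounded ((· < ·) : C.Γ → C.Γ → Prop)).min_mem _ hne
  have hd2 : ∀ y, y < d → ∃ n, y < z n := by
    intro y hy
    by_contra hc
    push Not at hc
    have : ∀ n, z n < y := fun n => (hzm (Nat.lt_succ_self n)).trans_le (hc (n + 1))
    exact (wellFounded_lt : WellFounded ((· < ·) : C.Γ → C.Γ → Prop)).not_lt_min _
      (show y ∈ {b : C.Γ | ∀ n, z n < b} from this) hy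
  have hex : ∀ y ∈ D d, ∃ n, y < z n := fun y hy => hd2 y (hD d hy)
  have hN : ∃ N, ∀ y ∈ D d, y < z N := by
    have := hf d
    choose! n hn using hex
    refine ⟨(hf d).toFinset.sup n, fun y hy => (hn y hy).trans_le (hzm.monotone ?_)⟩
    exact Finset.le_sup (f := n) ((hf d).mem_toFinset.2 hy)
  obtain ⟨N, hN⟩ := hN
  have h2 : d < g (z N) := hg2 (z N) d fun y hy => hN y hy
  rw [← hz] at h2
  exact lt_asymm h2 (hd1 (N + 1))

/-- `v` agrees with `e a` up to finitely many places below `a` -/
def Almost (v : C.Γ → ℕ) (a : C.Γ) : Prop := {c | c < a ∧ v c ≠ C.e a c}.Finite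

theorem countable_restr (z : C.Γ) : ∃ T : Set (Set.Iio z → ℕ), T.Countable ∧
    ∀ (v : C.Γ → ℕ) (a : C.Γ), z ≤ a → C.Almost v a → (fun c : Set.Iio z => v c) ∈ T := by
  haveI : Countable (Set.Iio z) := (C.ctb z).to_subtype
  refine ⟨Set.range (fun h : (Set.Iio z) →₀ ℤ => fun c => ((C.e z c : ℤ) + h c).toNat),
    Set.countable_range _, ?_⟩
  intro v a hza hv
  have hfin : {c : C.Γ | c < z ∧ v c ≠ C.e z c}.Finite := by
    rcases hza.lt_or_eq with h | h
    · refine (hv.union (C.coh z a h)).subset ?_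
      rintro c ⟨hc, hne⟩
      by_cases h1 : v c = C.e a c
      · right
        exact ⟨hc, fun h2 => hne (by rw [h1, h2])⟩
      · left
        exact ⟨hc.trans h, h1⟩
    · rw [h]; exact hv
  have hfin' : (Function.support (fun c : Set.Iio z => (v c : ℤ) - (C.e z c : ℤ))).Finite := by
    refine Set.Finite.of_finite_image (f := Subtype.val) (hfin.subset ?_)
      Subtype.val_injective.injOn
    rintro _ ⟨c, hc, rfl⟩
    refine ⟨c.2, fun h => hc ?_⟩
    show (v c : ℤ) - (C.e z c : ℤ) = 0
    rw [h, sub_self]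
  refine ⟨Finsupp.ofSupportFinite _ hfin', ?_⟩
  funext c
  simp [Finsupp.ofSupportFinite]

theorem branch {S : Set C.Γ} (hS : ¬ S.Countable) (v : C.Γ → C.Γ → ℕ)
    (hv : ∀ a ∈ S, C.Almost (v a) a) (g : C.Γ → C.Γ) (hg : ∀ a, a ≤ g a)
    (r : ℕ → ℕ → Prop) (hr : ∀ m n, m ≠ n → r m n ∨ r n m) (hr' : ∀ m n, r m n → ¬ r n m) :
    ∃ a ∈ S, ∃ b ∈ S, g a < b ∧ ∃ d < a, (∀ c < d, v a c = v b c) ∧ r (v a d) (v b d) := by
  by_contra hcon
  have hstar : ∀ a ∈ S, ∀ b ∈ S, g a < b → ∀ d < a, (∀ c < d, v a c = v b c) →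
      ¬ r (v a d) (v b d) := by
    intro a ha b hb hab d hd hc hrd
    exact hcon ⟨a, ha, b, hb, hab, d, hd, hc, hrd⟩
  -- the common restriction
  have hA : ∀ z, ∃ (t : C.Γ → ℕ) (w : C.Γ), ∀ a ∈ S, w < a → ∀ c < z, v a c = t c := by
    intro z
    obtain ⟨T, hT, hTv⟩ := C.countable_restr z
    have h1 : ∃ t ∈ T, ¬ {a | a ∈ S ∧ z ≤ a ∧ (fun c : Set.Iio z => v a c) = t}.Countable := by
      by_contra hc
      push Not at hc
      apply hS
      have h2 : S ⊆ Set.Iio z ∪ ⋃ t ∈ T, {a | a ∈ S ∧ z ≤ a ∧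
          (fun c : Set.Iio z => v a c) = t} := by
        intro a ha
        rcases lt_or_ge a z with h | h
        · exact Or.inl h
        · right
          exact Set.mem_biUnion (hTv (v a) a h (hv a ha)) ⟨ha, h, rfl⟩
      exact ((C.ctb z).union (hT.biUnion fun t ht => hc t ht)).mono h2
    obtain ⟨t, _, ht⟩ := h1
    have hne : {a | a ∈ S ∧ z ≤ a ∧ (fun c : Set.Iio z => v a c) = t}.Nonempty := by
      by_contra h
      rw [Set.not_nonempty_iff_eq_empty] at h
      rw [h] at ht
      exact ht Set.countable_empty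
    obtain ⟨a₀, ha₀S, hza₀, ha₀t⟩ := hne
    refine ⟨v a₀, g a₀, fun a ha haa c hc => ?_⟩
    by_contra hne
    have hneS : {c | c < z ∧ v a c ≠ v a₀ c}.Nonempty := ⟨c, hc, hne⟩
    set d := (wellFounded_lt : WellFounded ((· < ·) : C.Γ → C.Γ → Prop)).min _ hneS with hd
    have hd1 : d < z ∧ v a d ≠ v a₀ d :=
      (wellFounded_lt : WellFounded ((· < ·) : C.Γ → C.Γ → Prop)).min_mem _ hneS
    have hd2 : ∀ c < d, v a c = v a₀ c := by
      intro c hc
      by_contra h
      exact (wellFounded_lt : WellFounded ((· < ·) : C.Γ → C.Γ → Prop)).not_lt_min _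
        (show c ∈ {c | c < z ∧ v a c ≠ v a₀ c} from ⟨hc.trans hd1.1, h⟩) hc
    obtain ⟨a₁, ⟨ha₁S, hza₁, ha₁t⟩, ha₁⟩ := C.exists_gt_of_unc ht (g a)
    have heq : ∀ c < z, v a₁ c = v a₀ c := by
      intro c hc
      have := congrFun (ha₁t.trans ha₀t.symm) ⟨c, hc⟩
      exact this
    have hda : d < a := by
      have := hg a₀
      exact ((hd1.1.trans_le hza₀).trans_le this).trans haa
    have e1 := hstar a₀ ha₀S a ha haa d (hd1.1.trans_le hza₀) (fun c hc => (hd2 c hc).symm)
    have e2 := hstar a ha a₁ ha₁S ha₁ d hda (fun c hc => by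
      rw [hd2 c hc, heq c (hc.trans hd1.1)])
    rw [heq d hd1.1] at e2
    rcases hr _ _ hd1.2 with h | h
    · exact e2 h
    · exact e1 h
  choose t w htw using hA
  have hs : ∀ y : C.Γ, ∃ y', y < y' := by
    intro y
    obtain ⟨b, hb⟩ := C.exists_bound (Set.countable_singleton y)
    exact ⟨b, hb y rfl⟩
  choose s hs using hs
  set b : C.Γ → ℕ := fun y => t (s y) y with hb
  have hB : ∀ z, ∃ a ∈ S, z ≤ a ∧ ∀ c < z, v a c = b c := by
    intro z
    obtain ⟨u, hu⟩ := C.exists_bound (((C.ctb z).image (fun c => w (s c))).union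
      (Set.countable_singleton z))
    obtain ⟨a, haS, hua⟩ := C.exists_gt_of_unc hS u
    refine ⟨a, haS, ((hu z (Or.inr rfl)).trans hua).le, fun c hc => ?_⟩
    exact htw (s c) a haS ((hu _ (Or.inl ⟨c, hc, rfl⟩)).trans hua) c (hs c)
  have hfin : ∀ z n, {y | y < z ∧ b y = n}.Finite := by
    intro z n
    obtain ⟨a, haS, hza, hab⟩ := hB z
    refine ((hv a haS).union (C.fin1 a n)).subset ?_
    rintro y ⟨hyz, hyn⟩
    have hya : y < a := hyz.trans_le hza
    by_cases h : v a y = C.e a y
    · right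
      exact ⟨hya, by rw [← h, hab y hyz, hyn]⟩
    · left
      exact ⟨hya, h⟩
  have hcount : ∀ n, {y | b y = n}.Countable := by
    intro n
    by_contra hc
    have hinf : {y | b y = n}.Infinite := fun h => hc h.countable
    let f := hinf.natEmbedding
    obtain ⟨z, hz⟩ := C.exists_bound (Set.countable_range (fun k => (f k : C.Γ)))
    have h1 : (Set.range (fun k => (f k : C.Γ))) ⊆ {y | y < z ∧ b y = n} := by
      rintro _ ⟨k, rfl⟩
      exact ⟨hz _ ⟨k, rfl⟩, (f k).2⟩
    have h2 : (Set.range (fun k => (f k : C.Γ))).Infinite :=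
      Set.infinite_range_of_injective (Subtype.val_injective.comp f.injective)
    exact h2 ((hfin z n).subset h1)
  apply C.unc
  have : (Set.univ : Set C.Γ) ⊆ ⋃ n, {y | b y = n} := fun y _ => Set.mem_iUnion.2 ⟨b y, rfl⟩
  exact (Set.countable_iUnion hcount).mono this

theorem P1 {E : Set C.Γ} (hE : ¬ E.Countable) : ∃ a ∈ E, ∃ b ∈ E, C.Bad a b := by
  obtain ⟨a, ha, b, hb, hab, d, hd, h1, h2⟩ := C.branch hE C.e
    (fun a _ => by
      have : {c | c < a ∧ C.e a c ≠ C.e a c} = ∅ := by
        ext c; simp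
      unfold Almost
      rw [this]
      exact Set.finite_empty) (fun a => a) (fun a => le_rfl) (fun m n => n < m)
    (fun m n hmn => (lt_or_gt_of_ne hmn).symm) (fun m n h => by omega)
  exact ⟨a, ha, b, hb, Or.inl ⟨hab, d, hd, h1, h2⟩⟩

end Coh

end Pool.Agent.Sep
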