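import Mathlib

/-! MP_ce56ef_an: a ZFC counterexample to the dichotomy (1+)-separated / (1-)-concentrated for
uncountable subsets of unit spheres.  DEFINITIONS (combinatorial part).

`Coh`: a well ordered set `Γ` of type `ω₁` with a coherent sequence of finite-to-one functions
`e a : Iio a → ℕ`, and an injection into `2^ω`. -/

namespace Pool.Agent.Sep

/-- A coherent sequence of finite-to-one functions, indexed by `ω₁`. -/
structure Coh where
  Γ : Type
  [ord : LinearOrder Γ]
  [wf : WellFoundedLT Γ]
  ctb : ∀ a : Γ, (Set.Iio a).Countable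
  unc : ¬ (Set.univ : Set Γ).Countable
  x : Γ → ℕ → Bool
  x_inj : Function.Injective x
  e : Γ → Γ → ℕ
  fin1 : ∀ a n, {b | b < a ∧ e a b ≤ n}.Finite
  coh : ∀ a b, a < b → {c | c < a ∧ e a c ≠ e b c}.Finite

attribute [instance] Coh.ord Coh.wf

namespace Coh

variable (C : Coh)

/-- `a < b`, but `e a` is lexicographically after `e b`. -/
def bad0 (a b : C.Γ) : Prop :=
  a < b ∧ ∃ d < a, (∀ c < d, C.e a c = C.e b c) ∧ C.e b d < C.e a d

/-- the well order and the lexicographic order disagree on `{a, b}` -/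
def Bad (a b : C.Γ) : Prop := C.bad0 a b ∨ C.bad0 b a

lemma Bad.symm {a b : C.Γ} (h : C.Bad a b) : C.Bad b a := Or.symm h

lemma not_bad_self (a : C.Γ) : ¬ C.Bad a a := by
  rintro (h | h) <;> exact lt_irrefl _ h.1

end Coh

end Pool.Agent.Sep
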