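import Pool.Agent.Sep.Space

/-! MP_ce56ef_an.  The main norm estimate: differences of close copies. -/

open scoped ENNReal
open Finset

namespace Pool.Agent.Sep

namespace BData

variable (B : BData) (𝕜 : Type) [RCLike 𝕜]

/-- two tuples which are copies of each other at level `m` -/
structure Copy {n : ℕ} (m : ℕ) (α α' : Fin n → B.Γ) : Prop where
  close : ∀ j, B.R m (α j) (α' j)
  sep : ∀ j j', B.R m (α j) (α j') → j = j'
  good : ∀ j, ¬ B.Bad (α j) (α' j)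

/-- the difference of the values of the functionals -/
noncomputable def D {n : ℕ} (q : Fin n → 𝕜) (α α' : Fin n → B.Γ) (ν : ℕ∞) (b : B.Γ) : 𝕜 :=
  B.E 𝕜 q α ν b - B.E 𝕜 q α' ν b

lemma D_eq {n : ℕ} (q : Fin n → 𝕜) (α α' : Fin n → B.Γ) (ν : ℕ∞) (b : B.Γ) :
    B.D 𝕜 q α α' ν b = ∑ j, q j * (ind 𝕜 (B.R ν b (α j)) - ind 𝕜 (B.R ν b (α' j))) := by
  unfold D E
  rw [← Finset.sum_sub_distrib]
  refine Finset.sum_congr rfl fun j _ => ?_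
  ring

lemma D_low {n m : ℕ} {α α' : Fin n → B.Γ} (h : B.Copy m α α') (q : Fin n → 𝕜) {ν : ℕ∞}
    (hν : ν ≤ m) (b : B.Γ) : B.D 𝕜 q α α' ν b = 0 := by
  rw [D_eq]
  refine Finset.sum_eq_zero fun j _ => ?_
  have h1 := B.R_mono hν (h.close j)
  have h2 : B.R ν b (α j) ↔ B.R ν b (α' j) :=
    ⟨fun h3 => B.R_trans h3 h1, fun h3 => B.R_trans h3 (B.R_symm h1)⟩
  rw [ind_congr 𝕜 h2, sub_self, mul_zero]

/-- on the cluster of `j` only the term `j` counts -/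
lemma D_cluster {n m : ℕ} {α α' : Fin n → B.Γ} (h : B.Copy m α α') (q : Fin n → 𝕜) {ν : ℕ∞}
    (hν : (m : ℕ∞) ≤ ν) {b : B.Γ} {j : Fin n} (hj : B.R m b (α j)) :
    B.D 𝕜 q α α' ν b = q j * (ind 𝕜 (B.R ν b (α j)) - ind 𝕜 (B.R ν b (α' j))) := by
  rw [D_eq]
  refine Finset.sum_eq_single j (fun j' _ hne => ?_) (fun hj => absurd (Finset.mem_univ j) hj)
  have h1 : ¬ B.R ν b (α j') := fun h2 =>
    hne (h.sep j j' (B.R_trans (B.R_symm hj) (B.R_mono hν h2))).symm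
  have h1' : ¬ B.R ν b (α' j') := fun h2 =>
    hne (h.sep j j' (B.R_trans (B.R_trans (B.R_symm hj) (B.R_mono hν h2))
      (B.R_symm (h.close j')))).symm
  rw [ind_false 𝕜 h1, ind_false 𝕜 h1', sub_zero, mul_zero]

lemma D_out {n m : ℕ} {α α' : Fin n → B.Γ} (h : B.Copy m α α') (q : Fin n → 𝕜) {ν : ℕ∞}
    (hν : (m : ℕ∞) ≤ ν) {b : B.Γ} (hb : ∀ j, ¬ B.R m b (α j)) :
    B.D 𝕜 q α α' ν b = 0 := by
  rw [D_eq]
  refine Finset.sum_eq_zero fun j _ => ?_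
  have h1 : ¬ B.R ν b (α j) := fun h2 => hb j (B.R_mono hν h2)
  have h1' : ¬ B.R ν b (α' j) := fun h2 =>
    hb j (B.R_trans (B.R_mono hν h2) (B.R_symm (h.close j)))
  rw [ind_false 𝕜 h1, ind_false 𝕜 h1', sub_zero, mul_zero]

lemma ind_sub_norm (P Q : Prop) : ‖ind 𝕜 P - ind 𝕜 Q‖ ≤ 1 := by
  by_cases h : P
  · by_cases h' : Q
    · simp [ind_true 𝕜 h, ind_true 𝕜 h']
    · simp [ind_true 𝕜 h, ind_false 𝕜 h']
  · simpa [ind_false 𝕜 h] using ind_norm 𝕜 Q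

lemma D_norm {n m : ℕ} {α α' : Fin n → B.Γ} (h : B.Copy m α α') {q : Fin n → 𝕜} {ρ : ℝ}
    (hρ : 0 ≤ ρ) (hq : ∀ j, ‖q j‖ ≤ ρ) (ν : ℕ∞) (b : B.Γ) : ‖B.D 𝕜 q α α' ν b‖ ≤ ρ := by
  rcases le_total ν (m : ℕ∞) with hν | hν
  · rw [D_low B 𝕜 h q hν, norm_zero]
    exact hρ
  · by_cases hb : ∃ j, B.R m b (α j)
    · obtain ⟨j, hj⟩ := hb
      rw [D_cluster B 𝕜 h q hν hj, norm_mul]
      calc ‖q j‖ * ‖ind 𝕜 (B.R ν b (α j)) - ind 𝕜 (B.R ν b (α' j))‖ ≤ ρ * 1 :=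
            mul_le_mul (hq j) (ind_sub_norm 𝕜 _ _) (norm_nonneg _) hρ
        _ = ρ := mul_one ρ
    · push Not at hb
      rw [D_out B 𝕜 h q hν hb, norm_zero]
      exact hρ

/-- the coordinates of a bad pair in the same cluster do not add up -/
lemma D_pair {n m : ℕ} {α α' : Fin n → B.Γ} (h : B.Copy m α α') {q : Fin n → 𝕜} {ρ : ℝ}
    (hρ : 0 ≤ ρ) (hq : ∀ j, ‖q j‖ ≤ ρ) {a b : B.Γ} (hab : B.Bad a b) (hm : B.R m a b) :
    ‖B.D 𝕜 q α α' ⊤ a - B.D 𝕜 q α α' ⊤ b‖ ≤ ρ := by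
  by_cases hb : ∃ j, B.R m a (α j)
  · obtain ⟨j, hj⟩ := hb
    have hj' : B.R m b (α j) := B.R_trans (B.R_symm hm) hj
    rw [D_cluster B 𝕜 h q le_top hj, D_cluster B 𝕜 h q le_top hj', ← mul_sub, norm_mul]
    have key : ‖ind 𝕜 (B.R ⊤ a (α j)) - ind 𝕜 (B.R ⊤ a (α' j)) -
        (ind 𝕜 (B.R ⊤ b (α j)) - ind 𝕜 (B.R ⊤ b (α' j)))‖ ≤ 1 := by
      have hne : a ≠ b := fun e => B.irr a (by rw [e] at hab ⊢; exact hab)
      by_cases h1 : a = α j ∨ a = α' j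
      · -- then `b` is neither
        by_cases h2 : b = α j ∨ b = α' j
        · exfalso
          rcases h1 with h1 | h1 <;> rcases h2 with h2 | h2
          · exact hne (h1.trans h2.symm)
          · rw [h1, h2] at hab; exact h.good j hab
          · rw [h1, h2] at hab; exact h.good j (B.symm _ _ hab)
          · exact hne (h1.trans h2.symm)
        · push Not at h2
          have e1 : ¬ B.R ⊤ b (α j) := fun hR => h2.1 (B.R_top.1 hR)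
          have e2 : ¬ B.R ⊤ b (α' j) := fun hR => h2.2 (B.R_top.1 hR)
          rw [ind_false 𝕜 e1, ind_false 𝕜 e2, sub_zero, sub_zero]
          exact ind_sub_norm 𝕜 _ _
      · push Not at h1
        have e1 : ¬ B.R ⊤ a (α j) := fun hR => h1.1 (B.R_top.1 hR)
        have e2 : ¬ B.R ⊤ a (α' j) := fun hR => h1.2 (B.R_top.1 hR)
        rw [ind_false 𝕜 e1, ind_false 𝕜 e2, sub_zero, zero_sub, norm_neg]
        exact ind_sub_norm 𝕜 _ _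
    calc ‖q j‖ * _ ≤ ρ * 1 := mul_le_mul (hq j) key (norm_nonneg _) hρ
      _ = ρ := mul_one ρ
  · push Not at hb
    have hb' : ∀ j, ¬ B.R m b (α j) := fun j hj => hb j (B.R_trans hm hj)
    rw [D_out B 𝕜 h q le_top hb, D_out B 𝕜 h q le_top hb', sub_self, norm_zero]
    exact hρ

theorem est {n m : ℕ} {α α' : Fin n → B.Γ} (h : B.Copy m α α') {q : Fin n → 𝕜} {ρ : ℝ}
    (hρ : 0 ≤ ρ) (hρ1 : ρ ≤ 1) (hq : ∀ j, ‖q j‖ ≤ ρ) :
    ‖B.V 𝕜 q α - B.V 𝕜 q α'‖ ≤ ρ + wt m := by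
  refine lp.norm_le_of_forall_le (add_nonneg hρ (wt_pos m).le) fun i => ?_
  rw [lp.coeFn_sub, Pi.sub_apply]
  rcases i with ⟨ν, b, k, c, θ⟩ | p
  · have hθ : ‖(θ : 𝕜)‖ ≤ 1 := mem_closedBall_zero_iff.1 θ.2
    have e : B.V 𝕜 q α (Sum.inl (ν, b, k, c, θ)) - B.V 𝕜 q α' (Sum.inl (ν, b, k, c, θ)) =
        B.D 𝕜 q α α' ν b + (θ : 𝕜) * ((wt k : ℝ) : 𝕜) * B.D 𝕜 q α α' k c := by
      rw [V_inl, V_inl]
      unfold D
      ring
    rw [e]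
    refine (norm_add_le _ _).trans ?_
    refine add_le_add (D_norm B 𝕜 h hρ hq ν b) ?_
    rcases le_total k m with hk | hk
    · rw [D_low B 𝕜 h q (by exact_mod_cast hk), mul_zero, norm_zero]
      exact (wt_pos m).le
    · rw [norm_mul, norm_mul, norm_wt]
      have h1 := D_norm B 𝕜 h hρ hq k c
      have h2 := wt_anti hk
      have h3 := wt_pos k
      calc ‖(θ : 𝕜)‖ * wt k * ‖B.D 𝕜 q α α' k c‖ ≤ 1 * wt k * 1 :=
            mul_le_mul (mul_le_mul_of_nonneg_right hθ h3.le) (h1.trans hρ1) (norm_nonneg _)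
              (by positivity)
        _ ≤ wt m := by linarith
  · have e : B.V 𝕜 q α (Sum.inr p) - B.V 𝕜 q α' (Sum.inr p) =
        (1 / 2 : 𝕜) * (B.D 𝕜 q α α' ⊤ p.1.1 - B.D 𝕜 q α α' ⊤ p.1.2 + (1 / 2 : 𝕜) *
          (B.D 𝕜 q α α' ((B.dl p.1.1 p.1.2 + 1 : ℕ) : ℕ∞) p.1.1 -
            B.D 𝕜 q α α' ((B.dl p.1.1 p.1.2 + 1 : ℕ) : ℕ∞) p.1.2)) := by
      rw [V_inr, V_inr]
      unfold D
      ring
    have hne : p.1.1 ≠ p.1.2 := fun e => B.irr p.1.2 (by have := p.2; rw [e] at this; exact this)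
    obtain ⟨hd1, hd2⟩ := B.dl_spec hne
    have hw := wt_pos m
    have hC := norm_add_le (B.D 𝕜 q α α' ⊤ p.1.1 - B.D 𝕜 q α α' ⊤ p.1.2) ((1 / 2 : 𝕜) *
          (B.D 𝕜 q α α' ((B.dl p.1.1 p.1.2 + 1 : ℕ) : ℕ∞) p.1.1 -
            B.D 𝕜 q α α' ((B.dl p.1.1 p.1.2 + 1 : ℕ) : ℕ∞) p.1.2))
    rw [norm_mul, norm_half] at hC
    rw [e, norm_mul, norm_half]
    rcases le_or_gt (B.dl p.1.1 p.1.2 + 1) m with hk | hk
    · have hk' : ((B.dl p.1.1 p.1.2 + 1 : ℕ) : ℕ∞) ≤ m := by exact_mod_cast hk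
      rw [D_low B 𝕜 h q hk', D_low B 𝕜 h q hk', sub_self, norm_zero] at hC
      rw [D_low B 𝕜 h q hk', D_low B 𝕜 h q hk', sub_self]
      have h1 := norm_sub_le (B.D 𝕜 q α α' ⊤ p.1.1) (B.D 𝕜 q α α' ⊤ p.1.2)
      have h2 := D_norm B 𝕜 h hρ hq ⊤ p.1.1
      have h3 := D_norm B 𝕜 h hρ hq ⊤ p.1.2
      linarith
    · have hR : B.R m p.1.1 p.1.2 := by
        intro k hk2
        have : k < m := by exact_mod_cast hk2
        exact hd2 k (by omega)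
      have h1 := D_pair B 𝕜 h hρ hq p.2 hR
      have h2 := norm_sub_le (B.D 𝕜 q α α' ((B.dl p.1.1 p.1.2 + 1 : ℕ) : ℕ∞) p.1.1)
        (B.D 𝕜 q α α' ((B.dl p.1.1 p.1.2 + 1 : ℕ) : ℕ∞) p.1.2)
      have h3 := D_norm B 𝕜 h hρ hq ((B.dl p.1.1 p.1.2 + 1 : ℕ) : ℕ∞) p.1.1
      have h4 := D_norm B 𝕜 h hρ hq ((B.dl p.1.1 p.1.2 + 1 : ℕ) : ℕ∞) p.1.2
      linarith

end BData

end Pool.Agent.Sep
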