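import Pool.Agent.Sep.Defs

/-! MP_ce56ef_an.  MODULE EXIST (about 200 lines): existence of `Coh` (the function `ρ₁` of Todorcevic).

PROOF.  `Γ := (Cardinal.aleph 1).ord.toType` (or any well ordered type of order type `ω₁`, for instance
`Set.Iio` of that ordinal): every initial segment is countable, `Γ` is not.  `x`: `ℵ₁ ≤ 𝔠 = #(ℕ → Bool)`.
The functions: for every `b : Γ` choose a set `K b ⊆ Iio b` such that
 (i) for every `a < b` there is `c ∈ K b` with `a ≤ c`;
 (ii) for every `a < b` the set `K b ∩ Iio a` is finite.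
(If `Iio b` is empty: `K b = ∅`.  Otherwise `Iio b` is countable, let `f : ℕ → Iio b` be surjective and
`K b = {c | ∃ n, c = max of f 0, ..., f n}` (running maxima); (ii): if `a = f k` then all running maxima from
index `k` on are `≥ a`, so only the finitely many first ones are `< a`.)
For `a < b` let `s b a = min {c ∈ K b | a ≤ c}`, which is `< b`.  By well-founded recursion on `b`:
 `e b a = if h : a < b then max (ncard (K b ∩ Iio a)) (e (s b a) a) else 0`.
(So `e b a = ncard (K b ∩ Iio a)` if `a ∈ K b`, because then `s b a = a`, `e a a = 0`.)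
`fin1`, induction on `a`: suppose `e a b ≤ n` for infinitely many `b < a`.  Then
`ncard (K a ∩ Iio b) ≤ n` for them, so `s a b` is among the first `n + 1` elements of `K a` (if there are at
least `n+2` elements `c_0 < ... < c_(n+1)` in `K a` and `c_n < b`, the ncard is `≥ n + 1`); hence some
`c ∈ K a` is `s a b` for infinitely many of these `b`; `b = c` at most once, otherwise `b < c` and
`e c b ≤ e a b ≤ n`: contradiction to the induction hypothesis for `c < a`.
`coh`, induction on `b`, for all `a < b`: let `c = s b a` (`a ≤ c < b`) and `k = ncard (K b ∩ Iio a)`.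
The finitely many elements of `K b ∩ Iio a` cut `Iio a` into finitely many pieces.  For `ξ < a` above all
elements of `K b ∩ Iio a`: `s b ξ = c`, `e b ξ = max k (e c ξ)`, equal to `e c ξ` except for finitely many
`ξ` (`fin1`), and `e c ξ = e a ξ` except for finitely many `ξ` (trivial if `c = a`, otherwise the induction
hypothesis for `c < b`, `a < c`).  For `ξ < a` with `s b ξ = d ∈ K b`, `d < a`: either `ξ = d` or `ξ < d` and
`e b ξ = max (..) (e d ξ)` where `ncard (K b ∩ Iio ξ) ≤ k`, so equal to `e d ξ` for all but finitely many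
`ξ` (`fin1` for `d`), and `e d ξ = e a ξ` for all but finitely many `ξ < d` (induction hypothesis for the
pair `d < a`, as `a < b`).  There are only finitely many such `d`. -/

namespace Pool.Agent.Sep

namespace Exist

open Set

variable {Γ : Type} [LinearOrder Γ]

/-- Cofinal subsets of order type at most `ω` of the initial segments. -/
theorem exists_K (ctb : ∀ a : Γ, (Set.Iio a).Countable) (b : Γ) :
    ∃ K : Set Γ, K ⊆ Iio b ∧ (∀ a < b, ∃ c ∈ K, a ≤ c) ∧ ∀ a < b, (K ∩ Iio a).Finite := by
  rcases (Set.Iio b).eq_empty_or_nonempty with h | h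
  · refine ⟨∅, empty_subset _, fun a ha => ?_, fun a _ => ?_⟩
    · exact absurd (show a ∈ Iio b from ha) (by rw [h]; exact notMem_empty a)
    · rw [empty_inter]
      exact finite_empty
  · obtain ⟨f, hf⟩ := (ctb b).exists_eq_range h
    have hfb : ∀ n, f n < b := fun n => by
      have : f n ∈ Iio b := by rw [hf]; exact mem_range_self n
      exact this
    refine ⟨range (partialSups f), ?_, fun a ha => ?_, fun a ha => ?_⟩
    · rintro _ ⟨n, rfl⟩
      change partialSups f n < b
      induction n with
      | zero => rw [partialSups_zero]; exact hfb 0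
      | succ n ih =>
        rw [partialSups_add_one]
        exact max_lt ih (hfb _)
    · have h1 : a ∈ range f := by rw [← hf]; exact ha
      obtain ⟨n, rfl⟩ := h1
      exact ⟨partialSups f n, mem_range_self n, le_partialSups f n⟩
    · have h1 : a ∈ range f := by rw [← hf]; exact ha
      obtain ⟨k, rfl⟩ := h1
      refine ((Set.finite_Iio k).image (partialSups f)).subset ?_
      rintro _ ⟨⟨n, rfl⟩, hn⟩
      refine ⟨n, ?_, rfl⟩
      by_contra hcon
      rw [mem_Iio, not_lt] at hcon
      exact absurd (lt_of_le_of_lt (le_partialSups_of_le f hcon) hn) (lt_irrefl _)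

theorem exists_e [WellFoundedLT Γ] (ctb : ∀ a : Γ, (Set.Iio a).Countable) :
    ∃ e : Γ → Γ → ℕ, (∀ a n, {b | b < a ∧ e a b ≤ n}.Finite) ∧
      ∀ a b, a < b → {c | c < a ∧ e a c ≠ e b c}.Finite := by
  classical
  choose K hKb hKc hKf using exists_K ctb
  have hs : ∀ b a : Γ, ∃ c, a < b → (c ∈ K b ∧ a ≤ c ∧ ∀ d ∈ K b, a ≤ d → c ≤ d) := by
    intro b a
    by_cases h : a < b
    · obtain ⟨c, hc, hac⟩ := hKc b a h
      have hne : {c | c ∈ K b ∧ a ≤ c}.Nonempty := ⟨c, hc, hac⟩
      refine ⟨wellFounded_lt.min _ hne, fun _ => ?_⟩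
      have h1 := wellFounded_lt.min_mem _ hne
      refine ⟨h1.1, h1.2, fun d hd had => ?_⟩
      exact not_lt.1 (wellFounded_lt.not_lt_min {c | c ∈ K b ∧ a ≤ c} (x := d) ⟨hd, had⟩)
    · exact ⟨a, fun h' => absurd h' h⟩
  choose s hs using hs
  have hsb : ∀ b a, a < b → s b a < b := fun b a h => hKb b (hs b a h).1
  set e : Γ → Γ → ℕ := wellFounded_lt.fix (C := fun _ : Γ => Γ → ℕ) (fun b ih a =>
    if h : a < b then max (K b ∩ Iio a).ncard (ih (s b a) (hsb b a h) a) else 0) with he
  have he' : ∀ b a, a < b → e b a = max (K b ∩ Iio a).ncard (e (s b a) a) := by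
    intro b a h
    have h1 : e b = _ := wellFounded_lt.fix_eq _ b
    have h3 := congrFun h1 a
    simp only [dif_pos h] at h3
    exact h3
  have hf : ∀ a n, {b | b < a ∧ e a b ≤ n}.Finite := by
    intro a
    induction a using WellFoundedLT.induction with
    | ind a ih =>
      intro n
      have hC : {c | c ∈ K a ∧ (K a ∩ Iio c).ncard ≤ n}.Finite := by
        refine Set.Finite.of_injOn (f := fun c => (K a ∩ Iio c).ncard) (t := Iic n) ?_ ?_
          (finite_Iic n)
        · rintro c ⟨-, hc⟩
          exact hc
        · have key : ∀ c ∈ K a, ∀ c' ∈ K a, c < c' →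
              (K a ∩ Iio c).ncard < (K a ∩ Iio c').ncard := by
            intro c hc c' hc' h
            apply Set.ncard_lt_ncard _ (hKf a c' (hKb a hc'))
            rw [ssubset_iff_subset_ne]
            refine ⟨fun x hx => ⟨hx.1, lt_trans hx.2 h⟩, fun heq => ?_⟩
            have h1 : c ∈ K a ∩ Iio c' := ⟨hc, h⟩
            rw [← heq] at h1
            exact lt_irrefl _ h1.2
          intro c hc c' hc' h
          simp only at h
          rcases lt_trichotomy c c' with h1 | h1 | h1
          · exact absurd h (key c hc.1 c' hc'.1 h1).ne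
          · exact h1
          · exact absurd h.symm (key c' hc'.1 c hc.1 h1).ne
      refine (hC.biUnion (t := fun c => {c} ∪ {b | c < a ∧ b < c ∧ e c b ≤ n}) ?_).subset ?_
      · intro c hc
        refine (finite_singleton c).union ?_
        by_cases h : c < a
        · exact (ih c h n).subset fun b hb => hb.2
        · exact finite_empty.subset fun b hb => h hb.1
      · rintro b ⟨hba, hb⟩
        obtain ⟨h1, h2, h3⟩ := hs a b hba
        rw [he' a b hba] at hb
        have h4 : (K a ∩ Iio (s a b)) = K a ∩ Iio b := by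
          ext d
          constructor
          · rintro ⟨hd, hd'⟩
            refine ⟨hd, ?_⟩
            by_contra hcon
            rw [mem_Iio, not_lt] at hcon
            exact absurd (lt_of_le_of_lt (h3 d hd hcon) hd') (lt_irrefl _)
          · rintro ⟨hd, hd'⟩
            exact ⟨hd, lt_of_lt_of_le hd' h2⟩
        refine mem_biUnion (x := s a b) ⟨h1, ?_⟩ ?_
        · rw [h4]
          exact (le_max_left _ _).trans hb
        · rcases h2.eq_or_lt with h5 | h5
          · exact Or.inl h5
          · exact Or.inr ⟨hsb a b hba, h5, (le_max_right _ _).trans hb⟩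
  refine ⟨e, hf, fun a b => ?_⟩
  induction b using WellFoundedLT.induction generalizing a with
  | ind b ih =>
    intro hab
    obtain ⟨c1, c2, c3⟩ := hs b a hab
    set c := s b a with hc
    set k := (K b ∩ Iio a).ncard with hk
    have hfin := hKf b a hab
    have hcb : c < b := hsb b a hab
    refine Set.Finite.subset ((((hf c k).union (s := {ξ | ξ < c ∧ e c ξ ≤ k})
      (t := {ξ | a < c ∧ ξ < a ∧ e a ξ ≠ e c ξ}) ?_).union hfin).union (hfin.biUnion
      (t := fun d => {ξ | ξ < d ∧ e d ξ ≤ k} ∪ {ξ | d < a ∧ ξ < d ∧ e d ξ ≠ e a ξ}) ?_)) ?_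
    · by_cases h : a < c
      · exact (ih c hcb a h).subset fun ξ h1 => h1.2
      · exact finite_empty.subset fun ξ h1 => h h1.1
    · intro d hd
      refine (hf d k).union ?_
      by_cases h : d < a
      · exact (ih a hab d h).subset fun ξ h1 => h1.2
      · exact finite_empty.subset fun ξ h1 => h h1.1
    · rintro ξ ⟨hξ, hne⟩
      obtain ⟨d1, d2, d3⟩ := hs b ξ (hξ.trans hab)
      have hn := he' b ξ (hξ.trans hab)
      have hle : (K b ∩ Iio ξ).ncard ≤ k :=
        Set.ncard_le_ncard (fun x hx => ⟨hx.1, lt_trans hx.2 hξ⟩) hfin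
      set d := s b ξ with hd
      rcases lt_or_ge d a with h | h
      · rcases d2.eq_or_lt with h5 | h5
        · left; right
          rw [h5]
          exact ⟨d1, h⟩
        · right
          refine mem_biUnion (x := d) ⟨d1, h⟩ ?_
          rcases le_or_gt (e d ξ) k with h6 | h6
          · exact Or.inl ⟨h5, h6⟩
          · refine Or.inr ⟨h, h5, fun h7 => hne ?_⟩
            rw [hn, max_eq_right (hle.trans h6.le), h7]
      · have hdc : d = c := le_antisymm (d3 c c1 (hξ.le.trans c2)) (c3 d d1 h)
        rw [hdc] at hn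
        left; left
        rcases le_or_gt (e c ξ) k with h6 | h6
        · exact Or.inl ⟨lt_of_lt_of_le hξ c2, h6⟩
        · rw [max_eq_right (hle.trans h6.le)] at hn
          rcases c2.eq_or_lt with h5 | h5
          · exact absurd (by rw [hn, ← h5]) hne
          · exact Or.inr ⟨h5, hξ, fun h7 => hne (by rw [hn, h7])⟩

end Exist

open Cardinal in
theorem exists_Coh : Nonempty Coh := by
  have hctb : ∀ a : (aleph 1).ord.ToType, (Set.Iio a).Countable := by
    intro a
    rw [← Cardinal.le_aleph0_iff_set_countable, ← Cardinal.lt_aleph_one_iff]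
    have h := Cardinal.mk_Iio_lt a (by
      rw [Cardinal.mk_ord_toType]
      exact (Ordinal.type_toType _).symm)
    rwa [Cardinal.mk_ord_toType] at h
  obtain ⟨e, h1, h2⟩ := Exist.exists_e hctb
  have hcard : #(aleph 1).ord.ToType ≤ #(ℕ → Bool) := by
    rw [Cardinal.mk_ord_toType]
    simpa using Cardinal.aleph_one_le_continuum
  obtain ⟨x⟩ := hcard
  refine ⟨{
    Γ := (aleph 1).ord.ToType
    ctb := hctb
    unc := ?_
    x := x
    x_inj := x.injective
    e := e
    fin1 := h1
    coh := h2 }⟩
  rw [Set.countable_univ_iff, ← Cardinal.mk_le_aleph0_iff, ← Cardinal.lt_aleph_one_iff,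
    Cardinal.mk_ord_toType]
  exact lt_irrefl _

end Pool.Agent.Sep
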