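import Pool.Agent.Sep.Branch

/-! MP_ce56ef_an.  MODULE MULTI (about 150 lines, uses the statements of Branch): for every uncountable family of
`n`-tuples there are two tuples without a bad pair in the same coordinate.

PROOF of `P0`.  Suppose `S` is uncountable.
Step 1.  Choose an uncountable `S' ⊆ S` and a set `J₀` of coordinates, `J₀` of maximal size, such that `F i j` does
not depend on `i ∈ S'` for every `j ∈ J₀`.  Then for `j ∉ J₀` and every `y : Γ` the set `{i ∈ S' | F i j = y}` is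
countable.  If all coordinates are in `J₀`: take `i ≠ i'` in `S'`, `F i = F i'`, `not_bad_self`.
Step 2.  For each `a : Γ` there is `i a ∈ S'` with `a ≤ F (i a) j` for all `j ∉ J₀` (the set of
`i ∈ S'` with `F i j < a` for some `j ∉ J₀` is a countable union of countable sets, `ctb`).
Fix `j₀ ∉ J₀` and let `v a = e (F (i a) j₀)`.
Step 3.  `D a = {c < a | ∃ j j' ∉ J₀, e (F (i a) j) c ≠ e (F (i a) j') c}` is finite (`coh`; if
`F (i a) j = F (i a) j'` nothing to do).  `weak_fodor`: there is `z` with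
`S₁ = {a | D a ⊆ Iio z}` uncountable; we may intersect with `Ici z`.
Step 4.  By `countable_restr` (for `z` and the functions `e (F (i a) j)`, which are `Almost` equal to
`e a`: `a ≤ F (i a) j` and `coh`) there is an uncountable `S₂ ⊆ S₁` such that for each `j ∉ J₀` the restriction of
`e (F (i a) j)` to `Iio z` does not depend on `a ∈ S₂`.
Step 5.  `branch` for `S₂`, `v`, `g a = max a (max over j ∉ J₀ of F (i a) j)` and `r = (· < ·)`: there are
`a, b ∈ S₂`, `g a < b`, `d < a`, `v a = v b` below `d` and `v a d < v b d`.  `d ≥ z`, because `v a = v b` on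
`Iio z`.  For every `j ∉ J₀`: `F (i a) j < b ≤ F (i b) j`; below `z` the functions `e (F (i a) j)` and
`e (F (i b) j)` agree, on `[z, d)` they agree with `v a`, `v b` (as `c ∉ D a`, `c ∉ D b`), and at `d` also
`e (F (i a) j) d = v a d < v b d = e (F (i b) j) d`.  So the first difference is at `d < F (i a) j` and
`e (F (i a) j) d < e (F (i b) j) d`, hence `¬ Bad (F (i a) j) (F (i b) j)` (the first difference `d'` in a
witness of `bad0` must be `d`).  For `j ∈ J₀` the two entries are equal.  And `i a ≠ i b` because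
`F (i a) j₀ < b ≤ F (i b) j₀`. -/

namespace Pool.Agent.Sep

namespace Coh

variable (C : Coh)

theorem mu_diff_fin {a p q : C.Γ} (hp : a ≤ p) (hq : a ≤ q) :
    {c | c < a ∧ C.e p c ≠ C.e q c}.Finite := by
  rcases lt_trichotomy p q with h | h | h
  · refine (C.coh p q h).subset ?_
    rintro c ⟨h1, h2⟩
    exact ⟨lt_of_lt_of_le h1 hp, h2⟩
  · subst h
    have : {c | c < a ∧ C.e p c ≠ C.e p c} = ∅ := by
      ext c
      simp
    rw [this]
    exact Set.finite_empty
  · refine (C.coh q p h).subset ?_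
    rintro c ⟨h1, h2⟩
    exact ⟨lt_of_lt_of_le h1 hq, fun h3 => h2 h3.symm⟩

/-- pigeonhole for uncountable sets -/
theorem mu_pigeon {α β : Type*} {S : Set α} (hS : ¬ S.Countable) (φ : α → β) {T : Set β}
    (hT : T.Countable) (h : ∀ a ∈ S, φ a ∈ T) : ∃ t ∈ T, ¬ {a | a ∈ S ∧ φ a = t}.Countable := by
  by_contra hcon
  push Not at hcon
  apply hS
  have : S = ⋃ t ∈ T, {a | a ∈ S ∧ φ a = t} := by
    ext a
    simp only [Set.mem_iUnion, Set.mem_ofPred_eq, exists_prop]
    constructor
    · intro ha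
      exact ⟨φ a, h a ha, ha, rfl⟩
    · rintro ⟨t, _, ha, _⟩
      exact ha
  rw [this]
  exact hT.biUnion hcon

theorem P0 (n : ℕ) {ι : Type*} {S : Set ι} (hS : ¬ S.Countable) (F : ι → Fin n → C.Γ) :
    ∃ i ∈ S, ∃ i' ∈ S, i ≠ i' ∧ ∀ j, ¬ C.Bad (F i j) (F i' j) := by
  classical
  -- Step 1
  set P : Finset (Fin n) → Prop := fun J => ∃ S' ⊆ S, ¬ S'.Countable ∧
    ∀ j ∈ J, ∀ i ∈ S', ∀ i' ∈ S', F i j = F i' j with hP
  have hne : ((Finset.univ : Finset (Finset (Fin n))).filter P).Nonempty := by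
    refine ⟨∅, ?_⟩
    rw [Finset.mem_filter]
    refine ⟨Finset.mem_univ _, S, le_rfl, hS, ?_⟩
    intro j hj
    exact absurd hj (Finset.notMem_empty j)
  obtain ⟨J, hJ, hmax⟩ := Finset.exists_max_image _ Finset.card hne
  rw [Finset.mem_filter] at hJ
  obtain ⟨S', hS'S, hS', hconst⟩ := hJ.2
  have hcount : ∀ j, j ∉ J → ∀ y : C.Γ, {i | i ∈ S' ∧ F i j = y}.Countable := by
    intro j hj y
    by_contra hcon
    have h1 : P (insert j J) := by
      refine ⟨{i | i ∈ S' ∧ F i j = y}, ?_, hcon, ?_⟩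
      · rintro i ⟨hi, _⟩
        exact hS'S hi
      · intro j' hj' i hi i' hi'
        rw [Finset.mem_insert] at hj'
        rcases hj' with rfl | hj'
        · rw [hi.2, hi'.2]
        · exact hconst j' hj' i hi.1 i' hi'.1
    have h2 := hmax (insert j J) (Finset.mem_filter.2 ⟨Finset.mem_univ _, h1⟩)
    rw [Finset.card_insert_of_notMem hj] at h2
    omega
  by_cases hall : ∀ j, j ∈ J
  · have hnt : S'.Nontrivial := by
      rw [← Set.not_subsingleton_iff]
      intro hsub
      exact hS' hsub.countable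
    obtain ⟨i, hi, i', hi', hii⟩ := hnt
    refine ⟨i, hS'S hi, i', hS'S hi', hii, ?_⟩
    intro j
    rw [hconst j (hall j) i hi i' hi']
    exact C.not_bad_self _
  push Not at hall
  obtain ⟨j0, hj0⟩ := hall
  -- Step 2
  have hex : ∀ a : C.Γ, ∃ i ∈ S', ∀ j, j ∉ J → a ≤ F i j := by
    intro a
    have h1 : (⋃ j ∈ {j : Fin n | j ∉ J}, ⋃ y ∈ Set.Iio a, {i | i ∈ S' ∧ F i j = y}).Countable := by
      apply Set.Countable.biUnion (Set.to_countable _)
      intro j hj
      apply Set.Countable.biUnion (C.ctb a)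
      intro y _
      exact hcount j hj y
    by_contra hcon
    push Not at hcon
    apply hS'
    refine h1.mono ?_
    intro i hi
    obtain ⟨j, hj, hja⟩ := hcon i hi
    simp only [Set.mem_iUnion]
    exact ⟨j, hj, F i j, hja, hi, rfl⟩
  choose i hiS hi using hex
  -- Step 3
  set D : C.Γ → Set C.Γ := fun a => {c | c < a ∧ ∃ j j', j ∉ J ∧ j' ∉ J ∧
    C.e (F (i a) j) c ≠ C.e (F (i a) j') c} with hD
  have hDfin : ∀ a, (D a).Finite := by
    intro a
    have h1 : D a ⊆ ⋃ j ∈ {j : Fin n | j ∉ J}, ⋃ j' ∈ {j : Fin n | j ∉ J},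
        {c | c < a ∧ C.e (F (i a) j) c ≠ C.e (F (i a) j') c} := by
      rintro c ⟨hc, j, j', hj, hj', hne'⟩
      simp only [Set.mem_iUnion]
      exact ⟨j, hj, j', hj', hc, hne'⟩
    refine Set.Finite.subset ?_ h1
    apply Set.Finite.biUnion (Set.toFinite _)
    intro j hj
    apply Set.Finite.biUnion (Set.toFinite _)
    intro j' hj'
    exact C.mu_diff_fin (hi a j hj) (hi a j' hj')
  have hDsub : ∀ a, D a ⊆ Set.Iio a := by
    rintro a c ⟨hc, _⟩
    exact hc
  obtain ⟨z, hz⟩ := C.weak_fodor D hDfin hDsub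
  set S1 : Set C.Γ := {a | D a ⊆ Set.Iio z} \ Set.Iio z with hS1
  have hS1c : ¬ S1.Countable := by
    intro hcon
    apply hz
    refine (hcon.union (C.ctb z)).mono ?_
    intro a ha
    by_cases haz : a ∈ Set.Iio z
    · exact Or.inr haz
    · exact Or.inl ⟨ha, haz⟩
  -- Step 4
  obtain ⟨T, hT, hTr⟩ := C.countable_restr z
  have halm : ∀ a, ∀ j, j ∉ J → C.Almost (C.e (F (i a) j)) a := by
    intro a j hj
    exact C.mu_diff_fin (hi a j hj) le_rfl
  set φ : C.Γ → Fin n → (Set.Iio z → ℕ) := fun a j =>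
    if j ∈ J then (fun _ => 0) else (fun c : Set.Iio z => C.e (F (i a) j) c) with hφ
  have hT' : {f : Fin n → (Set.Iio z → ℕ) | ∀ j, f j ∈ insert (fun _ => 0) T}.Countable :=
    Set.countable_pi (fun _ => hT.insert _)
  obtain ⟨t, _, hS2⟩ := mu_pigeon hS1c φ hT' (by
    intro a ha j
    have haz : z ≤ a := not_lt.1 ha.2
    simp only [hφ]
    by_cases hj : j ∈ J
    · rw [if_pos hj]
      exact Set.mem_insert _ _
    · rw [if_neg hj]
      exact Set.mem_insert_of_mem _ (hTr _ a haz (halm a j hj)))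
  set S2 : Set C.Γ := {a | a ∈ S1 ∧ φ a = t} with hS2d
  have hagree : ∀ a ∈ S2, ∀ b ∈ S2, ∀ j, j ∉ J → ∀ c, c < z →
      C.e (F (i a) j) c = C.e (F (i b) j) c := by
    intro a ha b hb j hj c hc
    have h1 : φ a j = φ b j := by rw [ha.2, hb.2]
    simp only [hφ, if_neg hj] at h1
    exact congrFun h1 ⟨c, hc⟩
  -- Step 5
  set g : C.Γ → C.Γ := fun a =>
    (insert a (((Finset.univ : Finset (Fin n)).filter (fun j => j ∉ J)).image (F (i a)))).max'
      (Finset.insert_nonempty _ _) with hg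
  have hg1 : ∀ a, a ≤ g a := fun a => Finset.le_max' _ _ (Finset.mem_insert_self _ _)
  have hg2 : ∀ a, ∀ j, j ∉ J → F (i a) j ≤ g a := by
    intro a j hj
    apply Finset.le_max'
    apply Finset.mem_insert_of_mem
    rw [Finset.mem_image]
    exact ⟨j, Finset.mem_filter.2 ⟨Finset.mem_univ _, hj⟩, rfl⟩
  obtain ⟨a, ha, b, hb, hgab, d, hda, hlow, hd⟩ := C.branch hS2 (fun a => C.e (F (i a) j0))
    (fun a _ => halm a j0 hj0) g hg1 (· < ·) (fun m n h => lt_or_gt_of_ne h)
    (fun m n h => not_lt.2 h.le)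
  have hzd : z ≤ d := by
    by_contra hcon
    rw [not_le] at hcon
    have := hagree a ha b hb j0 hj0 d hcon
    rw [this] at hd
    exact lt_irrefl _ hd
  have hab : a < b := lt_of_le_of_lt (hg1 a) hgab
  have hout : ∀ a ∈ S2, ∀ c, z ≤ c → c < a → ∀ j, j ∉ J →
      C.e (F (i a) j) c = C.e (F (i a) j0) c := by
    intro a ha c hzc hca j hj
    by_contra hcon
    have h1 : c ∈ D a := ⟨hca, j, j0, hj, hj0, hcon⟩
    have h2 := ha.1.1 h1
    exact absurd h2 (not_lt.2 hzc)
  refine ⟨i a, hS'S (hiS a), i b, hS'S (hiS b), ?_, ?_⟩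
  · intro hcon
    have h1 := hg2 a j0 hj0
    have h2 := hi b j0 hj0
    rw [← hcon] at h2
    exact absurd (lt_of_le_of_lt h1 hgab) (not_lt.2 h2)
  · intro j
    by_cases hj : j ∈ J
    · rw [hconst j hj (i a) (hiS a) (i b) (hiS b)]
      exact C.not_bad_self _
    · have hPQ : F (i a) j < F (i b) j :=
        lt_of_le_of_lt (hg2 a j hj) (lt_of_lt_of_le hgab (hi b j hj))
      have hlow' : ∀ c < d, C.e (F (i a) j) c = C.e (F (i b) j) c := by
        intro c hcd
        rcases lt_or_ge c z with hcz | hcz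
        · exact hagree a ha b hb j hj c hcz
        · rw [hout a ha c hcz (hcd.trans hda) j hj,
            hout b hb c hcz ((hcd.trans hda).trans hab) j hj]
          exact hlow c hcd
      have hd' : C.e (F (i a) j) d < C.e (F (i b) j) d := by
        rw [hout a ha d hzd hda j hj, hout b hb d hzd (hda.trans hab) j hj]
        exact hd
      rintro (hbad | hbad)
      · obtain ⟨_, d', _, hl, hlt⟩ := hbad
        rcases lt_trichotomy d' d with h | h | h
        · rw [hlow' d' h] at hlt
          exact lt_irrefl _ hlt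
        · rw [h] at hlt
          exact lt_asymm hlt hd'
        · rw [hl d h] at hd'
          exact lt_irrefl _ hd'
      · exact lt_asymm hPQ hbad.1

end Coh

end Pool.Agent.Sep
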