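import Pool.Agent.Sep.Strict
import Pool.Agent.Sep.Exist
import Pool.Agent.Sep.Multi

/-! MP_ce56ef_an.  The final theorem. -/

open scoped ENNReal
open Finset

namespace Pool.Agent.Sep

lemma exists_uncountable_fiber {α K : Type*} [Countable K] {S : Set α} (hS : ¬ S.Countable)
    (P : α → K → Prop) (h : ∀ a ∈ S, ∃ t, P a t) : ∃ t, ¬ {a | a ∈ S ∧ P a t}.Countable := by
  by_contra hcon
  push Not at hcon
  apply hS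
  refine (Set.countable_iUnion hcon).mono fun a ha => ?_
  obtain ⟨t, ht⟩ := h a ha
  exact Set.mem_iUnion.2 ⟨t, ha, ht⟩

namespace BData

variable (B : BData) (𝕜 : Type) [RCLike 𝕜]

lemma exists_sep {n : ℕ} (α : Fin n → B.Γ) (hα : Function.Injective α) :
    ∃ m : ℕ, ∀ j j', B.R m (α j) (α j') → j = j' := by
  classical
  have h : ∀ p : Fin n × Fin n, ∃ k : ℕ, B.R k (α p.1) (α p.2) → p.1 = p.2 := by
    rintro ⟨j, j'⟩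
    by_cases hb : j = j'
    · exact ⟨0, fun _ => hb⟩
    · obtain ⟨h1, -⟩ := B.dl_spec (hα.ne hb)
      refine ⟨B.dl (α j) (α j') + 1, fun hR => absurd (hR (B.dl (α j) (α j')) ?_) h1⟩
      exact_mod_cast Nat.lt_succ_self _
  choose k hk using h
  refine ⟨∑ p, k p, fun j j' hR => hk (j, j') (B.R_mono ?_ hR)⟩
  exact_mod_cast Finset.single_le_sum (f := k) (fun _ _ => Nat.zero_le _)
    (Finset.mem_univ (j, j'))

/-- Every uncountable subset of the unit sphere has two points at distance less than one. -/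
theorem close_pair {Y : Set (B.X 𝕜)} (hY : Y ⊆ Metric.sphere 0 1) (hunc : ¬ Y.Countable) :
    ∃ x ∈ Y, ∃ y ∈ Y, x ≠ y ∧ ‖x - y‖ < 1 := by
  classical
  let q : ∀ n : ℕ, (Fin n → ℕ) → Fin n → 𝕜 := fun n k j => TopologicalSpace.denseSeq 𝕜 (k j)
  let Prp : (t : Σ n : ℕ, Σ m : ℕ, ℕ × (Fin n → ℕ) × (Fin n → Fin m → Bool)) → (B.X 𝕜) →
      (Fin t.1 → B.Γ) → Prop := fun t f α =>
    (∀ j j', B.R t.2.1 (α j) (α j') → j = j') ∧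
    (∀ j (i : Fin t.2.1), B.x (α j) i = t.2.2.2.2 j i) ∧
    ‖(f : B.Z 𝕜) - B.V 𝕜 (q t.1 t.2.2.2.1) α‖ < wt t.2.2.1 / 32 ∧
    wt t.2.1 ≤ wt t.2.2.1 / 32 ∧ ∀ j, ‖q t.1 t.2.2.2.1 j‖ ≤ 1 - wt t.2.2.1 / 8
  have hex : ∀ f ∈ Y, ∃ t, ∃ α, Prp t f α := by
    intro f hf
    have hf1 : ‖(f : B.Z 𝕜)‖ = 1 := by
      have := hY hf
      rw [mem_sphere_zero_iff_norm] at this
      exact this
    obtain ⟨N, hN⟩ := B.strict 𝕜 f.2 hf1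
    have hw := wt_pos N
    obtain ⟨n, k, α, hα, hf2⟩ := B.approx 𝕜 f.2 (show 0 < wt N / 32 by positivity)
    obtain ⟨m₀, hm₀⟩ := B.exists_sep α hα
    refine ⟨⟨n, max m₀ (N + 5), N, k, fun j i => B.x (α j) i⟩, α, ?_, fun _ _ => rfl, hf2, ?_,
      hN n (q n k) α hα (hf2.trans (by linarith))⟩
    · intro j j' hR
      exact hm₀ j j' (B.R_mono (by exact_mod_cast le_max_left _ _) hR)
    · rw [← wt_add N]
      exact wt_anti (le_max_right _ _)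
  obtain ⟨t, ht⟩ := exists_uncountable_fiber hunc (fun f t => ∃ α, Prp t f α) hex
  have hne : Nonempty B.Γ := by
    by_contra hcon
    rw [not_nonempty_iff] at hcon
    exact B.unc (Set.countable_univ)
  have hF : ∀ f : B.X 𝕜, ∃ α : Fin t.1 → B.Γ, (∃ α, Prp t f α) → Prp t f α := by
    intro f
    by_cases h : ∃ α, Prp t f α
    · obtain ⟨α, hα⟩ := h
      exact ⟨α, fun _ => hα⟩
    · exact ⟨fun _ => hne.some, fun h' => absurd h' h⟩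
  choose F hF using hF
  obtain ⟨f, ⟨hfY, hf⟩, f', ⟨hfY', hf'⟩, hne', hgood⟩ := B.P0 t.1 (B.X 𝕜) _ ht F
  obtain ⟨h1, h2, h3, h4, h5⟩ := hF f hf
  obtain ⟨h1', h2', h3', h4', h5'⟩ := hF f' hf'
  refine ⟨f, hfY, f', hfY', hne', ?_⟩
  have hcopy : B.Copy t.2.1 (F f) (F f') := by
    refine ⟨fun j k hk => ?_, h1, hgood⟩
    have hk' : k < t.2.1 := by exact_mod_cast hk
    have e1 := h2 j ⟨k, hk'⟩
    have e2 := h2' j ⟨k, hk'⟩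
    exact e1.trans e2.symm
  have hw := wt_pos t.2.2.1
  have hw' := wt_le t.2.2.1
  have hest := B.est 𝕜 hcopy (ρ := 1 - wt t.2.2.1 / 8) (by linarith) (by linarith) h5
  have e : (f : B.Z 𝕜) - f' = ((f : B.Z 𝕜) - B.V 𝕜 (q t.1 t.2.2.2.1) (F f)) +
      (B.V 𝕜 (q t.1 t.2.2.2.1) (F f) - B.V 𝕜 (q t.1 t.2.2.2.1) (F f')) -
      ((f' : B.Z 𝕜) - B.V 𝕜 (q t.1 t.2.2.2.1) (F f')) := by abel
  show ‖(f : B.Z 𝕜) - f'‖ < 1
  rw [e]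
  refine (norm_sub_le _ _).trans_lt ?_
  have := norm_add_le ((f : B.Z 𝕜) - B.V 𝕜 (q t.1 t.2.2.2.1) (F f))
    (B.V 𝕜 (q t.1 t.2.2.2.1) (F f) - B.V 𝕜 (q t.1 t.2.2.2.1) (F f'))
  linarith

lemma v_coord_self (a : B.Γ) :
    B.v 𝕜 a (Sum.inl (⊤, a, 0, a, ⟨0, by simp⟩)) = 1 := by
  rw [v_apply, coef, ind_true 𝕜 (B.R_refl ⊤ a)]
  simp

lemma v_coord_ne {a b : B.Γ} (h : a ≠ b) :
    B.v 𝕜 b (Sum.inl (⊤, a, 0, a, ⟨0, by simp⟩)) = 0 := by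
  rw [v_apply, coef, ind_false 𝕜 (fun hR => h (B.R_top.1 hR))]
  simp

lemma v_norm_ge (a : B.Γ) : 1 ≤ ‖B.v 𝕜 a‖ := by
  have h := lp.norm_apply_le_norm (by simp) (B.v 𝕜 a) (Sum.inl (⊤, a, 0, a, ⟨0, by simp⟩))
  rw [v_coord_self, norm_one] at h
  exact h

lemma v_mem (a : B.Γ) : B.v 𝕜 a ∈ B.X 𝕜 :=
  Submodule.le_topologicalClosure _ (Submodule.subset_span ⟨a, rfl⟩)

/-- the normalised vectors -/
noncomputable def y (a : B.Γ) : B.X 𝕜 :=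
  ⟨((‖B.v 𝕜 a‖⁻¹ : ℝ) : 𝕜) • B.v 𝕜 a, Submodule.smul_mem _ _ (B.v_mem 𝕜 a)⟩

lemma y_coe (a : B.Γ) : ((B.y 𝕜 a : B.X 𝕜) : B.Z 𝕜) = ((‖B.v 𝕜 a‖⁻¹ : ℝ) : 𝕜) • B.v 𝕜 a := rfl

lemma y_norm (a : B.Γ) : ‖B.y 𝕜 a‖ = 1 := by
  show ‖((B.y 𝕜 a : B.X 𝕜) : B.Z 𝕜)‖ = 1
  have h := B.v_norm_ge 𝕜 a
  have h0 : ‖B.v 𝕜 a‖ ≠ 0 := by linarith
  rw [y_coe, norm_smul, RCLike.norm_ofReal, abs_of_nonneg (by positivity), inv_mul_cancel₀ h0]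

lemma y_inj : Function.Injective (B.y 𝕜) := by
  intro a b hab
  by_contra hne
  have h1 : ((B.y 𝕜 a : B.X 𝕜) : B.Z 𝕜) (Sum.inl (⊤, a, 0, a, ⟨0, by simp⟩)) =
      ((B.y 𝕜 b : B.X 𝕜) : B.Z 𝕜) (Sum.inl (⊤, a, 0, a, ⟨0, by simp⟩)) := by rw [hab]
  rw [y_coe, y_coe, lp.coeFn_smul, lp.coeFn_smul, Pi.smul_apply, Pi.smul_apply, v_coord_self,
    v_coord_ne B 𝕜 hne, smul_zero, smul_eq_mul, mul_one] at h1
  have h := B.v_norm_ge 𝕜 a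
  have h0 : ‖B.v 𝕜 a‖⁻¹ ≠ 0 := by
    apply inv_ne_zero
    linarith
  exact h0 (by exact_mod_cast h1)

lemma y_bad {a b : B.Γ} (h : B.Bad a b) : 6 / 5 ≤ ‖B.y 𝕜 a - B.y 𝕜 b‖ := by
  have hne : a ≠ b := fun e => B.irr b (by rw [e] at h; exact h)
  obtain ⟨hd1, -⟩ := B.dl_spec hne
  have hd : ¬ B.R ((B.dl a b + 1 : ℕ) : ℕ∞) b a := fun hR =>
    hd1 (hR (B.dl a b) (by exact_mod_cast Nat.lt_succ_self _)).symm
  have hd' : ¬ B.R ((B.dl a b + 1 : ℕ) : ℕ∞) a b := fun hR => hd (B.R_symm hR)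
  have ha : B.v 𝕜 a (Sum.inr ⟨(a, b), h⟩) = ((3 / 4 : ℝ) : 𝕜) := by
    rw [v_apply, coef]
    rw [ind_true 𝕜 (B.R_refl ⊤ a), ind_false 𝕜 (fun hR => hne.symm (B.R_top.1 hR)),
      ind_true 𝕜 (B.R_refl _ a), ind_false 𝕜 hd]
    push_cast
    norm_num
  have hb : B.v 𝕜 b (Sum.inr ⟨(a, b), h⟩) = ((-(3 / 4) : ℝ) : 𝕜) := by
    rw [v_apply, coef]
    rw [ind_true 𝕜 (B.R_refl ⊤ b), ind_false 𝕜 (fun hR => hne (B.R_top.1 hR)),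
      ind_true 𝕜 (B.R_refl _ b), ind_false 𝕜 hd']
    push_cast
    norm_num
  have h1 := lp.norm_apply_le_norm (by simp)
    (((B.y 𝕜 a : B.X 𝕜) : B.Z 𝕜) - ((B.y 𝕜 b : B.X 𝕜) : B.Z 𝕜)) (Sum.inr ⟨(a, b), h⟩)
  rw [lp.coeFn_sub, Pi.sub_apply, y_coe, y_coe, lp.coeFn_smul, lp.coeFn_smul, Pi.smul_apply,
    Pi.smul_apply, ha, hb, smul_eq_mul, smul_eq_mul] at h1
  have e : ((‖B.v 𝕜 a‖⁻¹ : ℝ) : 𝕜) * ((3 / 4 : ℝ) : 𝕜) -
      ((‖B.v 𝕜 b‖⁻¹ : ℝ) : 𝕜) * ((-(3 / 4) : ℝ) : 𝕜) =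
      ((3 / 4 * (‖B.v 𝕜 a‖⁻¹ + ‖B.v 𝕜 b‖⁻¹) : ℝ) : 𝕜) := by
    push_cast
    ring
  rw [e, RCLike.norm_ofReal, abs_of_nonneg (by positivity)] at h1
  have key : ∀ c : B.Γ, 4 / 5 ≤ ‖B.v 𝕜 c‖⁻¹ := by
    intro c
    have h2 := B.v_norm 𝕜 c
    have h3 := B.v_norm_ge 𝕜 c
    have h4 : (5 / 4 : ℝ)⁻¹ ≤ ‖B.v 𝕜 c‖⁻¹ := inv_anti₀ (by linarith) h2
    norm_num at h4
    exact h4
  have ka := key a
  have kb := key b
  show 6 / 5 ≤ ‖((B.y 𝕜 a : B.X 𝕜) : B.Z 𝕜) - ((B.y 𝕜 b : B.X 𝕜) : B.Z 𝕜)‖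
  rw [y_coe, y_coe]
  linarith

/-- Every uncountable subset of the range of `y` has two points at distance at least `6/5`. -/
theorem far_pair {C : Set (B.X 𝕜)} (hC : C ⊆ Set.range (B.y 𝕜)) (hunc : ¬ C.Countable) :
    ∃ x ∈ C, ∃ z ∈ C, 6 / 5 ≤ ‖x - z‖ := by
  have hE : ¬ (B.y 𝕜 ⁻¹' C).Countable := by
    intro h
    apply hunc
    have := h.image (B.y 𝕜)
    rwa [Set.image_preimage_eq_of_subset hC] at this
  obtain ⟨a, ha, b, hb, hab⟩ := B.P1 _ hE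
  exact ⟨_, ha, _, hb, B.y_bad 𝕜 hab⟩

lemma range_y : ¬ (Set.range (B.y 𝕜)).Countable := by
  intro h
  apply B.unc
  have := h.preimage (B.y_inj 𝕜)
  rwa [Set.preimage_range] at this

theorem not_separable : ¬ TopologicalSpace.SeparableSpace (B.X 𝕜) := by
  intro hsep
  obtain ⟨t, ht⟩ := exists_uncountable_fiber (B.range_y 𝕜)
    (fun x (n : ℕ) => ‖x - TopologicalSpace.denseSeq (B.X 𝕜) n‖ < 1 / 2) (by
      intro x _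
      obtain ⟨n, hn⟩ := (TopologicalSpace.denseRange_denseSeq (B.X 𝕜)).exists_dist_lt x
        (show (0 : ℝ) < 1 / 2 by norm_num)
      exact ⟨n, by rw [← dist_eq_norm]; exact hn⟩)
  obtain ⟨x, ⟨-, hx⟩, z, ⟨-, hz⟩, h⟩ := B.far_pair 𝕜 (fun x hx => hx.1) ht
  have e : x - z = (x - TopologicalSpace.denseSeq (B.X 𝕜) t) -
      (z - TopologicalSpace.denseSeq (B.X 𝕜) t) := by abel
  rw [e] at h
  have := norm_sub_le (x - TopologicalSpace.denseSeq (B.X 𝕜) t)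
    (z - TopologicalSpace.denseSeq (B.X 𝕜) t)
  linarith

end BData

/-- the combinatorial data from a coherent sequence -/
def Coh.toBData (C : Coh) : BData where
  Γ := C.Γ
  unc := C.unc
  x := C.x
  x_inj := C.x_inj
  Bad := C.Bad
  symm := fun _ _ h => h.symm
  irr := C.not_bad_self
  P0 := fun n _ _ hS F => C.P0 n hS F
  P1 := fun _ hE => C.P1 hE

theorem main (𝕜 : Type) [RCLike 𝕜] :
    ∃ (X : Type) (_ : NormedAddCommGroup X) (_ : NormedSpace 𝕜 X),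
      CompleteSpace X ∧ ¬ TopologicalSpace.SeparableSpace X ∧
      (∀ Y ⊆ Metric.sphere (0 : X) 1, ¬ Y.Countable → ∃ x ∈ Y, ∃ y ∈ Y, x ≠ y ∧ ‖x - y‖ < 1) ∧
      ∃ A ⊆ Metric.sphere (0 : X) 1, ¬ A.Countable ∧
        ∀ C ⊆ A, ¬ C.Countable → ∃ x ∈ C, ∃ y ∈ C, 6 / 5 ≤ ‖x - y‖ := by
  obtain ⟨C⟩ := exists_Coh
  let B := C.toBData
  refine ⟨B.X 𝕜, inferInstance, inferInstance, ?_, B.not_separable 𝕜, fun Y hY h =>
    B.close_pair 𝕜 hY h, Set.range (B.y 𝕜), ?_, B.range_y 𝕜, fun C hC h => B.far_pair 𝕜 hC h⟩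
  · exact (Submodule.isClosed_topologicalClosure _).completeSpace_coe
  · rintro _ ⟨a, rfl⟩
    rw [mem_sphere_zero_iff_norm]
    exact B.y_norm 𝕜 a

end Pool.Agent.Sep
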