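import Mathlib

/-! MP_ce56ef_an.  The Banach space: coordinates, vectors, and the main norm estimate. -/

open scoped ENNReal
open Finset

namespace Pool.Agent.Sep

/-- The combinatorial data used by the Banach space construction. -/
structure BData where
  Γ : Type
  unc : ¬ (Set.univ : Set Γ).Countable
  x : Γ → ℕ → Bool
  x_inj : Function.Injective x
  Bad : Γ → Γ → Prop
  symm : ∀ a b, Bad a b → Bad b a
  irr : ∀ a, ¬ Bad a a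
  P0 : ∀ (n : ℕ) (ι : Type) (S : Set ι), ¬ S.Countable → ∀ F : ι → Fin n → Γ,
    ∃ i ∈ S, ∃ i' ∈ S, i ≠ i' ∧ ∀ j, ¬ Bad (F i j) (F i' j)
  P1 : ∀ E : Set Γ, ¬ E.Countable → ∃ a ∈ E, ∃ b ∈ E, Bad a b

namespace BData

variable (B : BData)

/-- `x a` and `x b` agree below `ν`; for `ν = ⊤` this means `a = b`. -/
def R (ν : ℕ∞) (b a : B.Γ) : Prop := ∀ k : ℕ, (k : ℕ∞) < ν → B.x b k = B.x a k

lemma R_top {a b : B.Γ} : B.R ⊤ b a ↔ b = a := by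
  constructor
  · intro h
    apply B.x_inj
    funext k
    exact h k (ENat.natCast_lt_top k)
  · rintro rfl k _
    rfl

lemma R_mono {ν μ : ℕ∞} (h : ν ≤ μ) {a b : B.Γ} (hR : B.R μ b a) : B.R ν b a :=
  fun k hk => hR k (hk.trans_le h)

lemma R_refl (ν : ℕ∞) (a : B.Γ) : B.R ν a a := fun _ _ => rfl

lemma R_symm {ν : ℕ∞} {a b : B.Γ} (h : B.R ν a b) : B.R ν b a := fun k hk => (h k hk).symm

lemma R_trans {ν : ℕ∞} {a b c : B.Γ} (h : B.R ν a b) (h' : B.R ν b c) : B.R ν a c :=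
  fun k hk => (h k hk).trans (h' k hk)

/-- the first difference -/
noncomputable def dl (a b : B.Γ) : ℕ := sInf {k | B.x a k ≠ B.x b k}

lemma dl_spec {a b : B.Γ} (h : a ≠ b) :
    B.x a (B.dl a b) ≠ B.x b (B.dl a b) ∧ ∀ k < B.dl a b, B.x a k = B.x b k := by
  have hne : {k | B.x a k ≠ B.x b k}.Nonempty := by
    by_contra hcon
    rw [Set.not_nonempty_iff_eq_empty] at hcon
    apply h
    apply B.x_inj
    funext k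
    by_contra hk
    have : k ∈ {k | B.x a k ≠ B.x b k} := hk
    rw [hcon] at this
    exact this
  refine ⟨Nat.sInf_mem hne, fun k hk => ?_⟩
  by_contra hk'
  exact Nat.notMem_of_lt_sInf hk hk'

/-- the weights -/
noncomputable def wt (n : ℕ) : ℝ := (1 / 4) * (1 / 2) ^ n

lemma wt_pos (n : ℕ) : 0 < wt n := by unfold wt; positivity

lemma wt_le (n : ℕ) : wt n ≤ 1 / 4 := by
  unfold wt
  have : ((1 : ℝ) / 2) ^ n ≤ 1 := pow_le_one₀ (by norm_num) (by norm_num)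
  linarith

lemma wt_anti {m n : ℕ} (h : m ≤ n) : wt n ≤ wt m := by
  unfold wt
  have : ((1 : ℝ) / 2) ^ n ≤ (1 / 2) ^ m := pow_le_pow_of_le_one (by norm_num) (by norm_num) h
  linarith

lemma wt_add (n : ℕ) : wt (n + 5) = wt n / 32 := by
  unfold wt
  rw [pow_add]
  norm_num
  ring

variable (𝕜 : Type) [RCLike 𝕜]

/-- indicator -/
noncomputable def ind (P : Prop) : 𝕜 := by
  classical
  exact if P then 1 else 0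

lemma ind_true {P : Prop} (h : P) : ind 𝕜 P = 1 := by
  simp [ind, h]

lemma ind_false {P : Prop} (h : ¬ P) : ind 𝕜 P = 0 := by
  simp [ind, h]

lemma ind_norm (P : Prop) : ‖ind 𝕜 P‖ ≤ 1 := by
  by_cases h : P
  · simp [ind_true 𝕜 h]
  · simp [ind_false 𝕜 h]

lemma ind_congr {P Q : Prop} (h : P ↔ Q) : ind 𝕜 P = ind 𝕜 Q := by
  rw [propext h]

/-- the index set of the coordinates -/
abbrev Idx : Type :=
  (ℕ∞ × B.Γ × ℕ × B.Γ × Metric.closedBall (0 : 𝕜) 1) ⊕ {p : B.Γ × B.Γ // B.Bad p.1 p.2}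

/-- the coordinates of the vector `v a` -/
noncomputable def coef (a : B.Γ) : B.Idx 𝕜 → 𝕜
  | Sum.inl (ν, b, n, c, θ) => ind 𝕜 (B.R ν b a) + (θ : 𝕜) * ((wt n : ℝ) : 𝕜) * ind 𝕜 (B.R n c a)
  | Sum.inr p => (1 / 2 : 𝕜) * (ind 𝕜 (B.R ⊤ p.1.1 a) - ind 𝕜 (B.R ⊤ p.1.2 a) + (1 / 2 : 𝕜) *
      (ind 𝕜 (B.R ((B.dl p.1.1 p.1.2 + 1 : ℕ) : ℕ∞) p.1.1 a) -
        ind 𝕜 (B.R ((B.dl p.1.1 p.1.2 + 1 : ℕ) : ℕ∞) p.1.2 a)))

lemma norm_half : ‖(1 / 2 : 𝕜)‖ = 1 / 2 := by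
  simp

lemma norm_wt (n : ℕ) : ‖((wt n : ℝ) : 𝕜)‖ = wt n := by
  rw [RCLike.norm_ofReal, abs_of_pos (wt_pos n)]

lemma coef_norm (a : B.Γ) (i : B.Idx 𝕜) : ‖B.coef 𝕜 a i‖ ≤ 5 / 4 := by
  rcases i with ⟨ν, b, n, c, θ⟩ | p
  · have hθ : ‖(θ : 𝕜)‖ ≤ 1 := mem_closedBall_zero_iff.1 θ.2
    have h1 := ind_norm 𝕜 (B.R ν b a)
    have h2 : ‖(θ : 𝕜) * ((wt n : ℝ) : 𝕜) * ind 𝕜 (B.R n c a)‖ ≤ 1 / 4 := by
      rw [norm_mul, norm_mul, norm_wt]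
      have h3 := ind_norm 𝕜 (B.R n c a)
      have h4 := wt_le n
      have h5 := wt_pos n
      calc ‖(θ : 𝕜)‖ * wt n * ‖ind 𝕜 (B.R n c a)‖ ≤ 1 * wt n * 1 := by
            refine mul_le_mul (mul_le_mul_of_nonneg_right hθ h5.le) h3 (norm_nonneg _) (by positivity)
        _ ≤ 1 / 4 := by linarith
    have h3 := norm_add_le (ind 𝕜 (B.R ν b a)) ((θ : 𝕜) * ((wt n : ℝ) : 𝕜) * ind 𝕜 (B.R n c a))
    rw [coef]
    linarith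
  · have h2 := ind_norm 𝕜 (B.R ⊤ p.1.2 a)
    have hA : ‖ind 𝕜 (B.R ⊤ p.1.1 a) - ind 𝕜 (B.R ⊤ p.1.2 a)‖ ≤ 1 := by
      by_cases h : B.R ⊤ p.1.1 a
      · by_cases h' : B.R ⊤ p.1.2 a
        · simp [ind_true 𝕜 h, ind_true 𝕜 h']
        · simp [ind_true 𝕜 h, ind_false 𝕜 h']
      · simpa [ind_false 𝕜 h] using h2
    have hB1 := ind_norm 𝕜 (B.R ((B.dl p.1.1 p.1.2 + 1 : ℕ) : ℕ∞) p.1.1 a)
    have hB2 := ind_norm 𝕜 (B.R ((B.dl p.1.1 p.1.2 + 1 : ℕ) : ℕ∞) p.1.2 a)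
    have hB := norm_sub_le (ind 𝕜 (B.R ((B.dl p.1.1 p.1.2 + 1 : ℕ) : ℕ∞) p.1.1 a))
      (ind 𝕜 (B.R ((B.dl p.1.1 p.1.2 + 1 : ℕ) : ℕ∞) p.1.2 a))
    have hC := norm_add_le (ind 𝕜 (B.R ⊤ p.1.1 a) - ind 𝕜 (B.R ⊤ p.1.2 a)) ((1 / 2 : 𝕜) *
          (ind 𝕜 (B.R ((B.dl p.1.1 p.1.2 + 1 : ℕ) : ℕ∞) p.1.1 a) -
          ind 𝕜 (B.R ((B.dl p.1.1 p.1.2 + 1 : ℕ) : ℕ∞) p.1.2 a)))
    rw [norm_mul, norm_half] at hC
    rw [coef, norm_mul, norm_half]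
    linarith

/-- the big space -/
abbrev Z : Type := lp (fun _ : B.Idx 𝕜 => 𝕜) ∞

/-- the vector `v a` -/
noncomputable def v (a : B.Γ) : B.Z 𝕜 :=
  ⟨B.coef 𝕜 a, memℓp_infty ⟨5 / 4, by rintro _ ⟨i, rfl⟩; exact B.coef_norm 𝕜 a i⟩⟩

lemma v_apply (a : B.Γ) (i : B.Idx 𝕜) : B.v 𝕜 a i = B.coef 𝕜 a i := rfl

lemma v_norm (a : B.Γ) : ‖B.v 𝕜 a‖ ≤ 5 / 4 :=
  lp.norm_le_of_forall_le (by norm_num) fun i => B.coef_norm 𝕜 a i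

/-- finite linear combinations -/
noncomputable def V {n : ℕ} (q : Fin n → 𝕜) (α : Fin n → B.Γ) : B.Z 𝕜 := ∑ j, q j • B.v 𝕜 (α j)

/-- values of the basic functionals on finite linear combinations -/
noncomputable def E {n : ℕ} (q : Fin n → 𝕜) (α : Fin n → B.Γ) (ν : ℕ∞) (b : B.Γ) : 𝕜 :=
  ∑ j, q j * ind 𝕜 (B.R ν b (α j))

lemma V_apply {n : ℕ} (q : Fin n → 𝕜) (α : Fin n → B.Γ) (i : B.Idx 𝕜) :
    B.V 𝕜 q α i = ∑ j, q j * B.coef 𝕜 (α j) i := by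
  unfold V
  rw [lp.coeFn_sum, Finset.sum_apply]
  refine Finset.sum_congr rfl fun j _ => ?_
  rw [lp.coeFn_smul, Pi.smul_apply, smul_eq_mul, v_apply]

lemma V_inl {n : ℕ} (q : Fin n → 𝕜) (α : Fin n → B.Γ) (ν : ℕ∞) (b : B.Γ) (m : ℕ) (c : B.Γ)
    (θ : Metric.closedBall (0 : 𝕜) 1) :
    B.V 𝕜 q α (Sum.inl (ν, b, m, c, θ)) =
      B.E 𝕜 q α ν b + (θ : 𝕜) * ((wt m : ℝ) : 𝕜) * B.E 𝕜 q α m c := by
  rw [V_apply]
  unfold E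
  rw [Finset.mul_sum, ← Finset.sum_add_distrib]
  refine Finset.sum_congr rfl fun j _ => ?_
  rw [coef]
  ring

lemma V_inr {n : ℕ} (q : Fin n → 𝕜) (α : Fin n → B.Γ) (p : {p : B.Γ × B.Γ // B.Bad p.1 p.2}) :
    B.V 𝕜 q α (Sum.inr p) = (1 / 2 : 𝕜) * (B.E 𝕜 q α ⊤ p.1.1 - B.E 𝕜 q α ⊤ p.1.2 + (1 / 2 : 𝕜) *
      (B.E 𝕜 q α ((B.dl p.1.1 p.1.2 + 1 : ℕ) : ℕ∞) p.1.1 -
        B.E 𝕜 q α ((B.dl p.1.1 p.1.2 + 1 : ℕ) : ℕ∞) p.1.2)) := by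
  rw [V_apply]
  unfold E
  rw [← Finset.sum_sub_distrib, ← Finset.sum_sub_distrib, Finset.mul_sum, ← Finset.sum_add_distrib,
    Finset.mul_sum]
  refine Finset.sum_congr rfl fun j _ => ?_
  rw [coef]
  ring

end BData

end Pool.Agent.Sep
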