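import Pool.Agent.Sep.Est

/-! MP_ce56ef_an.  Approximation of the vectors of the closed span and the strict inequality for
their coordinates. -/

open scoped ENNReal
open Finset

namespace Pool.Agent.Sep

namespace BData

variable (B : BData) (𝕜 : Type) [RCLike 𝕜]

/-- the Banach space: closed linear span of the vectors `v a` -/
noncomputable def X : Submodule 𝕜 (B.Z 𝕜) := (Submodule.span 𝕜 (Set.range (B.v 𝕜))).topologicalClosure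

lemma E_sub {n : ℕ} (q : Fin n → 𝕜) (α : Fin n → B.Γ) (hα : Function.Injective α) (j : Fin n) :
    B.E 𝕜 q α ⊤ (α j) = q j := by
  unfold E
  rw [Finset.sum_eq_single j]
  · rw [ind_true 𝕜 (B.R_refl ⊤ (α j)), mul_one]
  · intro j' _ hne
    have : ¬ B.R ⊤ (α j) (α j') := fun h => hne (hα (B.R_top.1 h)).symm
    rw [ind_false 𝕜 this, mul_zero]
  · intro h
    exact absurd (Finset.mem_univ j) h

/-- `E ⊤ b` is `E n b` for some finite `n` -/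
lemma E_top {n : ℕ} (q : Fin n → 𝕜) (α : Fin n → B.Γ) (b : B.Γ) :
    ∃ k : ℕ, B.E 𝕜 q α ⊤ b = B.E 𝕜 q α k b := by
  classical
  have h : ∀ j, ∃ k : ℕ, B.R k b (α j) → b = α j := by
    intro j
    by_cases hb : b = α j
    · exact ⟨0, fun _ => hb⟩
    · obtain ⟨h1, -⟩ := B.dl_spec hb
      refine ⟨B.dl b (α j) + 1, fun hR => absurd (hR (B.dl b (α j)) ?_) h1⟩
      exact_mod_cast Nat.lt_succ_self _
  choose k hk using h
  refine ⟨∑ j, k j, ?_⟩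
  unfold E
  refine Finset.sum_congr rfl fun j _ => ?_
  have hle : ((k j : ℕ) : ℕ∞) ≤ ((∑ j, k j : ℕ) : ℕ∞) := by
    exact_mod_cast Finset.single_le_sum (f := k) (fun _ _ => Nat.zero_le _) (Finset.mem_univ j)
  have : B.R ⊤ b (α j) ↔ B.R ((∑ j, k j : ℕ) : ℕ∞) b (α j) :=
    ⟨fun h => B.R_mono le_top h, fun h => B.R_top.2 (hk j (B.R_mono hle h))⟩
  rw [ind_congr 𝕜 this]

lemma exists_theta (a b : 𝕜) : ∃ θ : Metric.closedBall (0 : 𝕜) 1, ‖a + (θ : 𝕜) * b‖ = ‖a‖ + ‖b‖ := by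
  by_cases hb : b = 0
  · exact ⟨⟨0, by simp⟩, by simp [hb]⟩
  by_cases ha : a = 0
  · exact ⟨⟨1, by simp⟩, by simp [ha]⟩
  have hb' : ‖b‖ ≠ 0 := norm_ne_zero_iff.2 hb
  have ha' : ‖a‖ ≠ 0 := norm_ne_zero_iff.2 ha
  refine ⟨⟨a * ((‖b‖ : ℝ) : 𝕜) / (((‖a‖ : ℝ) : 𝕜) * b), ?_⟩, ?_⟩
  · rw [mem_closedBall_zero_iff, norm_div, norm_mul, norm_mul, RCLike.norm_ofReal,
      RCLike.norm_ofReal, abs_norm, abs_norm, div_self (mul_ne_zero ha' hb')]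
  · have h1 : ((‖a‖ : ℝ) : 𝕜) ≠ 0 := by exact_mod_cast ha'
    have h2 : a + a * ((‖b‖ : ℝ) : 𝕜) / (((‖a‖ : ℝ) : 𝕜) * b) * b =
        a * (((1 + ‖b‖ / ‖a‖ : ℝ)) : 𝕜) := by
      push_cast
      field_simp
    show ‖a + a * ((‖b‖ : ℝ) : 𝕜) / (((‖a‖ : ℝ) : 𝕜) * b) * b‖ = ‖a‖ + ‖b‖
    rw [h2, norm_mul, RCLike.norm_ofReal, abs_of_pos (by positivity)]
    field_simp

/-- the norm dominates a coordinate plus a weighted evaluation -/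
lemma V_lower {n : ℕ} (q : Fin n → 𝕜) (α : Fin n → B.Γ) (ν : ℕ∞) (b : B.Γ) (k : ℕ) (c : B.Γ) :
    ‖B.E 𝕜 q α ν b‖ + wt k * ‖B.E 𝕜 q α k c‖ ≤ ‖B.V 𝕜 q α‖ := by
  obtain ⟨θ, hθ⟩ := exists_theta 𝕜 (B.E 𝕜 q α ν b) (((wt k : ℝ) : 𝕜) * B.E 𝕜 q α k c)
  have h := lp.norm_apply_le_norm (by simp) (B.V 𝕜 q α) (Sum.inl (ν, b, k, c, θ))
  rw [V_inl, mul_assoc, hθ, norm_mul, norm_wt] at h
  exact h

/-- a vector of norm more than `3/4` has a large evaluation -/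
lemma large_E {n : ℕ} (q : Fin n → 𝕜) (α : Fin n → B.Γ) (h : 3 / 4 < ‖B.V 𝕜 q α‖) :
    ∃ (k : ℕ) (b : B.Γ), 1 / 2 ≤ ‖B.E 𝕜 q α k b‖ := by
  have key : ∃ (ν : ℕ∞) (b : B.Γ), 1 / 2 ≤ ‖B.E 𝕜 q α ν b‖ := by
    by_contra hcon
    push Not at hcon
    refine absurd h (not_lt.2 (lp.norm_le_of_forall_le (by norm_num) fun i => ?_))
    rcases i with ⟨ν, b, k, c, θ⟩ | p
    · have hθ : ‖(θ : 𝕜)‖ ≤ 1 := mem_closedBall_zero_iff.1 θ.2
      rw [V_inl]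
      refine (norm_add_le _ _).trans ?_
      rw [norm_mul, norm_mul, norm_wt]
      have h1 := hcon ν b
      have h2 := hcon k c
      have h3 := wt_le k
      have h4 := wt_pos k
      have h5 : ‖(θ : 𝕜)‖ * wt k * ‖B.E 𝕜 q α k c‖ ≤ 1 * wt k * (1 / 2) :=
        mul_le_mul (mul_le_mul_of_nonneg_right hθ h4.le) h2.le (norm_nonneg _) (by positivity)
      linarith
    · rw [V_inr, norm_mul, norm_half]
      have h1 := norm_add_le (B.E 𝕜 q α ⊤ p.1.1 - B.E 𝕜 q α ⊤ p.1.2) ((1 / 2 : 𝕜) *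
        (B.E 𝕜 q α ((B.dl p.1.1 p.1.2 + 1 : ℕ) : ℕ∞) p.1.1 -
        B.E 𝕜 q α ((B.dl p.1.1 p.1.2 + 1 : ℕ) : ℕ∞) p.1.2))
      rw [norm_mul, norm_half] at h1
      have h2 := norm_sub_le (B.E 𝕜 q α ⊤ p.1.1) (B.E 𝕜 q α ⊤ p.1.2)
      have h3 := norm_sub_le (B.E 𝕜 q α ((B.dl p.1.1 p.1.2 + 1 : ℕ) : ℕ∞) p.1.1)
        (B.E 𝕜 q α ((B.dl p.1.1 p.1.2 + 1 : ℕ) : ℕ∞) p.1.2)
      have h4 := hcon ⊤ p.1.1
      have h5 := hcon ⊤ p.1.2
      have h6 := hcon ((B.dl p.1.1 p.1.2 + 1 : ℕ) : ℕ∞) p.1.1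
      have h7 := hcon ((B.dl p.1.1 p.1.2 + 1 : ℕ) : ℕ∞) p.1.2
      linarith
  obtain ⟨ν, b, hb⟩ := key
  rcases eq_or_ne ν ⊤ with rfl | hν
  · obtain ⟨k, hk⟩ := B.E_top 𝕜 q α b
    exact ⟨k, b, by rw [← hk]; exact hb⟩
  · obtain ⟨k, rfl⟩ := ENat.ne_top_iff_exists.1 hν
    exact ⟨k, b, hb⟩

/-- approximation by finite combinations with coefficients in the dense sequence -/
theorem approx {f : B.Z 𝕜} (hf : f ∈ B.X 𝕜) {ε : ℝ} (hε : 0 < ε) :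
    ∃ (n : ℕ) (k : Fin n → ℕ) (α : Fin n → B.Γ), Function.Injective α ∧
      ‖f - B.V 𝕜 (fun j => TopologicalSpace.denseSeq 𝕜 (k j)) α‖ < ε := by
  classical
  have h1 : f ∈ closure ((Submodule.span 𝕜 (Set.range (B.v 𝕜)) : Submodule 𝕜 (B.Z 𝕜)) :
      Set (B.Z 𝕜)) := by
    rw [← Submodule.topologicalClosure_coe]
    exact hf
  obtain ⟨g, hg, hfg⟩ := Metric.mem_closure_iff.1 h1 (ε / 2) (half_pos hε)
  obtain ⟨c, rfl⟩ := (Finsupp.mem_span_range_iff_exists_finsupp).1 hg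
  set n := c.support.card with hn
  let e : Fin n ≃ c.support := (c.support.equivFin).symm
  let α : Fin n → B.Γ := fun j => (e j : B.Γ)
  have hα : Function.Injective α := fun j j' h => e.injective (Subtype.ext h)
  have hδ : 0 < ε / (4 * (n + 1)) := by positivity
  have hk : ∀ j : Fin n, ∃ k : ℕ, ‖c (α j) - TopologicalSpace.denseSeq 𝕜 k‖ < ε / (4 * (n + 1)) := by
    intro j
    have hd := TopologicalSpace.denseRange_denseSeq 𝕜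
    obtain ⟨k, hk⟩ := hd.exists_dist_lt (c (α j)) hδ
    exact ⟨k, by rw [← dist_eq_norm]; exact hk⟩
  choose k hk using hk
  refine ⟨n, k, α, hα, ?_⟩
  have hsum : (c.sum fun i a => a • B.v 𝕜 i) = ∑ j, c (α j) • B.v 𝕜 (α j) := by
    rw [Finsupp.sum, ← Finset.sum_coe_sort c.support (fun i => c i • B.v 𝕜 i)]
    exact (Equiv.sum_comp e (fun i : c.support => c i • B.v 𝕜 i)).symm
  have hdiff : ‖(c.sum fun i a => a • B.v 𝕜 i) -
      B.V 𝕜 (fun j => TopologicalSpace.denseSeq 𝕜 (k j)) α‖ ≤ ε / 2 := by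
    rw [hsum]
    unfold V
    rw [← Finset.sum_sub_distrib]
    refine (norm_sum_le _ _).trans ?_
    have hterm : ∀ j ∈ (Finset.univ : Finset (Fin n)), ‖c (α j) • B.v 𝕜 (α j) -
        TopologicalSpace.denseSeq 𝕜 (k j) • B.v 𝕜 (α j)‖ ≤ ε / (4 * (n + 1)) * (5 / 4) := by
      intro j _
      rw [← sub_smul, norm_smul]
      exact mul_le_mul (hk j).le (B.v_norm 𝕜 _) (norm_nonneg _) hδ.le
    refine (Finset.sum_le_sum hterm).trans ?_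
    rw [Finset.sum_const, Finset.card_univ, Fintype.card_fin, nsmul_eq_mul]
    have hn0 : (0 : ℝ) ≤ n := Nat.cast_nonneg n
    have : (n : ℝ) * (ε / (4 * (n + 1)) * (5 / 4)) = (5 / 16) * ε * (n / (n + 1)) := by
      field_simp
      ring
    rw [this]
    have h2 : (n : ℝ) / (n + 1) ≤ 1 := by
      rw [div_le_one (by positivity)]
      linarith
    nlinarith
  calc ‖f - B.V 𝕜 (fun j => TopologicalSpace.denseSeq 𝕜 (k j)) α‖
      = ‖(f - (c.sum fun i a => a • B.v 𝕜 i)) + ((c.sum fun i a => a • B.v 𝕜 i) -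
        B.V 𝕜 (fun j => TopologicalSpace.denseSeq 𝕜 (k j)) α)‖ := by congr 1; abel
    _ ≤ ‖f - (c.sum fun i a => a • B.v 𝕜 i)‖ + _ := norm_add_le _ _
    _ < ε := by
        rw [dist_eq_norm] at hfg
        linarith

/-- the coordinates of a unit vector stay strictly below one -/
theorem strict {f : B.Z 𝕜} (hf : f ∈ B.X 𝕜) (hf1 : ‖f‖ = 1) : ∃ N : ℕ,
    ∀ (n : ℕ) (q : Fin n → 𝕜) (α : Fin n → B.Γ), Function.Injective α →
      ‖f - B.V 𝕜 q α‖ < wt N / 8 → ∀ j, ‖q j‖ ≤ 1 - wt N / 8 := by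
  obtain ⟨n₁, k₁, α₁, -, h₁⟩ := B.approx 𝕜 hf (show (0 : ℝ) < 1 / 8 by norm_num)
  set q₁ : Fin n₁ → 𝕜 := fun j => TopologicalSpace.denseSeq 𝕜 (k₁ j)
  have h2 : 3 / 4 < ‖B.V 𝕜 q₁ α₁‖ := by
    have := norm_sub_norm_le f (B.V 𝕜 q₁ α₁)
    linarith
  obtain ⟨N, b, hb⟩ := B.large_E 𝕜 q₁ α₁ h2
  refine ⟨N, fun n q α hα hq j => ?_⟩
  have hw := wt_le N
  have hw0 := wt_pos N
  -- the two approximations are close
  have h3 : ‖B.V 𝕜 q₁ α₁ - B.V 𝕜 q α‖ ≤ 1 / 4 := by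
    have e : B.V 𝕜 q₁ α₁ - B.V 𝕜 q α = (f - B.V 𝕜 q α) - (f - B.V 𝕜 q₁ α₁) := by abel
    rw [e]
    refine (norm_sub_le _ _).trans ?_
    linarith
  have h4 := lp.norm_apply_le_norm (by simp) (B.V 𝕜 q₁ α₁ - B.V 𝕜 q α)
    (Sum.inl ((N : ℕ∞), b, 0, b, ⟨0, by simp⟩))
  rw [lp.coeFn_sub, Pi.sub_apply, V_inl, V_inl, zero_mul, zero_mul, zero_mul, add_zero,
    add_zero] at h4
  have h5 : 1 / 4 ≤ ‖B.E 𝕜 q α N b‖ := by
    have := norm_sub_norm_le (B.E 𝕜 q₁ α₁ N b) (B.E 𝕜 q α N b)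
    linarith
  have h6 := B.V_lower 𝕜 q α ⊤ (α j) N b
  rw [B.E_sub 𝕜 q α hα j] at h6
  have h7 : ‖B.V 𝕜 q α‖ ≤ 1 + wt N / 8 := by
    have := norm_sub_norm_le (B.V 𝕜 q α) f
    rw [norm_sub_rev, hf1] at this
    linarith
  nlinarith

end BData

end Pool.Agent.Sep
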